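import Mathlib

set_option autoImplicit false
set_option linter.unusedSectionVars false

open MeasureTheory Filter Topology Set Metric
open scoped Convolution NNReal

namespace Pool.Agent.H273.Moll

variable {Ω : Type} [Fintype Ω] {X : Type} [NormedAddCommGroup X] [NormedSpace ℝ X]
  [CompleteSpace X]

/-- the bump of outer radius 1/(m+1) on W = Ω → ℝ -/
noncomputable def bump (Ω : Type) [Fintype Ω] (m : ℕ) : ContDiffBump (0 : Ω → ℝ) where
  rIn := 1 / (2 * ((m : ℝ) + 1))
  rOut := 1 / ((m : ℝ) + 1)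
  rIn_pos := by positivity
  rIn_lt_rOut := by
    have : (0 : ℝ) < (m : ℝ) + 1 := by positivity
    rw [div_lt_div_iff₀ (by positivity) this]
    linarith

/-- the mollified map -/
noncomputable def moll (g : (Ω → ℝ) → X) (m : ℕ) : (Ω → ℝ) → X :=
  ((bump Ω m).normed volume ⋆[ContinuousLinearMap.lsmul ℝ ℝ, volume] g)

theorem moll_apply (g : (Ω → ℝ) → X) (m : ℕ) (w : Ω → ℝ) :
    moll g m w = ∫ y, (bump Ω m).normed volume y • g (w - y) := by
  simp [moll, convolution_def]

theorem moll_contDiff {g : (Ω → ℝ) → X} (hg : Continuous g) (m : ℕ) :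
    ContDiff ℝ ((⊤ : ℕ∞) : WithTop ℕ∞) (moll g m) := by
  apply HasCompactSupport.contDiff_convolution_left
  · exact (bump Ω m).hasCompactSupport_normed
  · exact (bump Ω m).contDiff_normed
  · exact hg.locallyIntegrable

theorem moll_integrable {g : (Ω → ℝ) → X} (hg : Continuous g) (m : ℕ) (w : Ω → ℝ) :
    Integrable (fun y => (bump Ω m).normed volume y • g (w - y)) volume := by
  apply Continuous.integrable_of_hasCompactSupport
  · exact ((bump Ω m).continuous_normed).smul (hg.comp (continuous_const.sub continuous_id))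
  · exact (bump Ω m).hasCompactSupport_normed.smul_right

theorem moll_sub_le {g : (Ω → ℝ) → X} (hg : Continuous g) (m : ℕ) (w w' : Ω → ℝ) (C : ℝ)
    (h : ∀ y, ‖g (w - y) - g (w' - y)‖ ≤ C) :
    ‖moll g m w - moll g m w'‖ ≤ C := by
  rw [moll_apply, moll_apply, ← integral_sub (moll_integrable hg m w) (moll_integrable hg m w')]
  calc ‖∫ y, ((bump Ω m).normed volume y • g (w - y) - (bump Ω m).normed volume y • g (w' - y))‖
      ≤ ∫ y, (bump Ω m).normed volume y * C := by
        apply norm_integral_le_of_norm_le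
        · exact ((bump Ω m).integrable_normed).mul_const C
        · refine Eventually.of_forall fun y => ?_
          rw [← smul_sub, norm_smul, Real.norm_of_nonneg ((bump Ω m).nonneg_normed y)]
          exact mul_le_mul_of_nonneg_left (h y) ((bump Ω m).nonneg_normed y)
    _ = C := by
        rw [integral_mul_const, (bump Ω m).integral_normed, one_mul]

theorem moll_dist_le {g : (Ω → ℝ) → X} (hg : Continuous g) (m : ℕ) (w : Ω → ℝ) (C : ℝ)
    (h : ∀ y, ‖y - w‖ < 1 / ((m : ℝ) + 1) → ‖g y - g w‖ ≤ C) :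
    ‖moll g m w - g w‖ ≤ C := by
  rw [← dist_eq_norm]
  apply ContDiffBump.dist_normed_convolution_le hg.aestronglyMeasurable
  intro x hx
  rw [dist_eq_norm]
  exact h x (by rw [mem_ball, dist_eq_norm] at hx; exact hx)

/-- the l1 size on W -/
def N1 (w : Ω → ℝ) : ℝ := ∑ ω, |w ω|

theorem moll_fderiv_le {g : (Ω → ℝ) → X} (hg : Continuous g)
    (h1 : ∀ w w', ‖g w - g w'‖ ≤ N1 (w - w')) (m : ℕ) (w v : Ω → ℝ) :
    ‖fderiv ℝ (moll g m) w v‖ ≤ N1 v := by
  have hd : DifferentiableAt ℝ (moll g m) w :=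
    ((moll_contDiff hg m).differentiable (by simp)).differentiableAt
  have h2 : HasDerivAt (fun t : ℝ => moll g m (w + t • v)) (fderiv ℝ (moll g m) w v) 0 := by
    have h3 : HasDerivAt (fun t : ℝ => w + t • v) v 0 := by
      simpa using ((hasDerivAt_id (0 : ℝ)).smul_const v).const_add w
    have h4 : HasFDerivAt (moll g m) (fderiv ℝ (moll g m) w) (w + (0 : ℝ) • v) := by
      simpa using hd.hasFDerivAt
    exact h4.comp_hasDerivAt 0 h3
  have hN : 0 ≤ N1 v := Finset.sum_nonneg fun _ _ => abs_nonneg _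
  refine h2.le_of_lip' hN (Eventually.of_forall fun t => ?_)
  have h5 : ‖moll g m (w + t • v) - moll g m (w + (0 : ℝ) • v)‖ ≤ N1 (t • v) := by
    apply moll_sub_le hg
    intro y
    refine (h1 _ _).trans (le_of_eq ?_)
    congr 1
    ext ω
    simp
  refine h5.trans (le_of_eq ?_)
  simp only [N1, Pi.smul_apply, smul_eq_mul, abs_mul, sub_zero, Real.norm_eq_abs]
  rw [← Finset.mul_sum, mul_comm]

theorem moll_fderiv_local {g : (Ω → ℝ) → X} (hg : Continuous g) (m : ℕ) (w₀ : Ω → ℝ)
    (φ : X →L[ℝ] ℝ) (ℓ : (Ω → ℝ) →L[ℝ] ℝ) (c r : ℝ) (hr : 1 / ((m : ℝ) + 1) < r)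
    (haff : ∀ y, ‖y - w₀‖ < r → φ (g y) = ℓ y + c) (v : Ω → ℝ) :
    φ (fderiv ℝ (moll g m) w₀ v) = ℓ v := by
  have hd : DifferentiableAt ℝ (moll g m) w₀ :=
    ((moll_contDiff hg m).differentiable (by simp)).differentiableAt
  have key : ∀ w, ‖w - w₀‖ < r - 1 / ((m : ℝ) + 1) →
      φ (moll g m w) = φ (moll g m w₀) + ℓ (w - w₀) := by
    intro w hw
    rw [moll_apply, moll_apply, ← ContinuousLinearMap.integral_comp_comm _ (moll_integrable hg m w),
      ← ContinuousLinearMap.integral_comp_comm _ (moll_integrable hg m w₀)]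
    have e1 : ∀ y, φ ((bump Ω m).normed volume y • g (w - y)) =
        φ ((bump Ω m).normed volume y • g (w₀ - y)) + (bump Ω m).normed volume y * ℓ (w - w₀) := by
      intro y
      by_cases hy : y ∈ Function.support ((bump Ω m).normed volume)
      · rw [(bump Ω m).support_normed_eq, mem_ball, dist_zero_right] at hy
        have hy' : ‖y‖ < 1 / ((m : ℝ) + 1) := hy
        have hA : φ (g (w - y)) = ℓ (w - y) + c := by
          apply haff
          calc ‖w - y - w₀‖ = ‖(w - w₀) - y‖ := by congr 1; abel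
            _ ≤ ‖w - w₀‖ + ‖y‖ := norm_sub_le _ _
            _ < r := by linarith
        have hB : φ (g (w₀ - y)) = ℓ (w₀ - y) + c := by
          apply haff
          calc ‖w₀ - y - w₀‖ = ‖y‖ := by rw [← norm_neg]; congr 1; abel
            _ < r := by linarith
        rw [map_smul, map_smul, hA, hB, map_sub, map_sub, map_sub]
        simp only [smul_eq_mul]
        ring
      · have hy0 : (bump Ω m).normed volume y = 0 := by
          simpa [Function.mem_support] using hy
        simp [hy0]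
    simp_rw [e1]
    rw [integral_add, integral_mul_const, (bump Ω m).integral_normed, one_mul]
    · exact φ.integrable_comp (moll_integrable hg m w₀)
    · exact ((bump Ω m).integrable_normed).mul_const _
  have h1 : HasFDerivAt (fun w => φ (moll g m w)) (φ.comp (fderiv ℝ (moll g m) w₀)) w₀ :=
    φ.hasFDerivAt.comp w₀ hd.hasFDerivAt
  have h2 : HasFDerivAt (fun w => φ (moll g m w₀) + ℓ (w - w₀)) ℓ w₀ := by
    have h : HasFDerivAt (fun w => ℓ (w - w₀)) ℓ w₀ := by
      have h5 : (fun w => ℓ (w - w₀)) = fun w => ℓ w - ℓ w₀ := by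
        ext w; rw [map_sub]
      rw [h5]
      exact ℓ.hasFDerivAt.sub_const _
    exact h.const_add (φ (moll g m w₀))
  have h3 : HasFDerivAt (fun w => φ (moll g m w)) ℓ w₀ := by
    apply h2.congr_of_eventuallyEq
    have : ∀ᶠ w in 𝓝 w₀, ‖w - w₀‖ < r - 1 / ((m : ℝ) + 1) := by
      have h4 : Metric.ball w₀ (r - 1 / ((m : ℝ) + 1)) ∈ 𝓝 w₀ :=
        Metric.ball_mem_nhds _ (by linarith)
      filter_upwards [h4] with w hw
      rwa [mem_ball, dist_eq_norm] at hw
    filter_upwards [this] with w hw using key w hw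
  have h4 := h1.unique h3
  calc φ (fderiv ℝ (moll g m) w₀ v) = (φ.comp (fderiv ℝ (moll g m) w₀)) v := rfl
    _ = ℓ v := by rw [h4]

end Pool.Agent.H273.Moll
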