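import Mathlib
import Pool.Agent.H273.Moll

set_option autoImplicit false
set_option linter.unusedSectionVars false

open MeasureTheory Filter Topology Set Metric
open scoped Convolution NNReal ENNReal

namespace Pool.Agent.H273.Moll

variable {J : Type} [Fintype J]

/-- a measurable set of finite measure is L1-approximated by compactly supported
Lipschitz functions -/
theorem exists_lip_approx {A : Set (J → ℝ)} (hA : MeasurableSet A) (hfin : volume A ≠ ∞)
    {η : ℝ} (hη : 0 < η) :
    ∃ (h : (J → ℝ) → ℝ) (C : ℝ≥0), LipschitzWith C h ∧ HasCompactSupport h ∧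
      Integrable (fun x => A.indicator (fun _ => (1 : ℝ)) x - h x) ∧
      ∫ x, |A.indicator (fun _ => (1 : ℝ)) x - h x| ≤ η := by
  have hη2 : ENNReal.ofReal (η / 2) ≠ 0 := by
    simp [hη]
  obtain ⟨K, hKA, hK, hKm⟩ := hA.exists_isCompact_sdiff_lt hfin hη2
  have hKfin : volume K ≠ ∞ := hK.measure_lt_top.ne
  obtain ⟨U, hKU, hU, hUfin, hUm⟩ :=
    hK.measurableSet.exists_isOpen_sdiff_lt hKfin hη2
  obtain ⟨d1, hd1, hd1U⟩ := hK.exists_thickening_subset_open hU hKU
  obtain ⟨d2, hd2, hd2c⟩ := hK.exists_isCompact_cthickening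
  set d := min d1 d2 with hd
  have hdpos : 0 < d := lt_min hd1 hd2
  set h : (J → ℝ) → ℝ := fun x => (thickenedIndicator hdpos K x : ℝ) with hh
  have h0 : ∀ x, 0 ≤ h x := fun x => NNReal.coe_nonneg _
  have h1 : ∀ x, h x ≤ 1 := fun x => by
    exact_mod_cast thickenedIndicator_le_one hdpos K x
  have hone : ∀ x ∈ K, h x = 1 := fun x hx => by
    simp only [hh]
    rw [thickenedIndicator_one hdpos K hx]; rfl
  have hzero : ∀ x, x ∉ thickening d K → h x = 0 := fun x hx => by
    simp only [hh]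
    rw [thickenedIndicator_zero hdpos K hx]; rfl
  have hlip : LipschitzWith d.toNNReal⁻¹ h := by
    have := lipschitzWith_thickenedIndicator hdpos K
    intro x y
    have h3 := this x y
    rwa [edist_nndist] at h3 ⊢
  have hcs : HasCompactSupport h := by
    apply HasCompactSupport.of_support_subset_isCompact hd2c
    intro x hx
    by_contra hcon
    apply hx
    apply hzero
    intro hx2
    apply hcon
    exact (thickening_subset_cthickening _ _).trans (cthickening_mono (min_le_right _ _) _) hx2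
  have hhint : Integrable h := hlip.continuous.integrable_of_hasCompactSupport hcs
  have hAint : Integrable (A.indicator (fun _ => (1 : ℝ))) := by
    rw [integrable_indicator_iff hA]
    exact integrableOn_const hfin
  have hint : Integrable (fun x => A.indicator (fun _ => (1 : ℝ)) x - h x) := hAint.sub hhint
  refine ⟨h, _, hlip, hcs, hint, ?_⟩
  have hm1 : MeasurableSet (A \ K) := hA.diff hK.measurableSet
  have hm2 : MeasurableSet (U \ K) := hU.measurableSet.diff hK.measurableSet
  have hbound : ∀ x, |A.indicator (fun _ => (1 : ℝ)) x - h x| ≤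
      (A \ K).indicator (fun _ => (1 : ℝ)) x + (U \ K).indicator (fun _ => (1 : ℝ)) x := by
    intro x
    by_cases hxK : x ∈ K
    · have hxA : x ∈ A := hKA hxK
      simp [hxA, hxK, hone x hxK]
    · by_cases hxU : x ∈ U
      · have e2 : (U \ K).indicator (fun _ => (1 : ℝ)) x = 1 := by simp [hxU, hxK]
        have e1 : 0 ≤ (A \ K).indicator (fun _ => (1 : ℝ)) x := by
          apply Set.indicator_nonneg; intros; norm_num
        rw [e2]
        have : |A.indicator (fun _ => (1 : ℝ)) x - h x| ≤ 1 := by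
          by_cases hxA : x ∈ A
          · simp only [hxA, indicator_of_mem]
            rw [abs_le]; constructor <;> linarith [h0 x, h1 x]
          · simp only [hxA, not_false_eq_true, indicator_of_notMem]
            rw [abs_le]; constructor <;> linarith [h0 x, h1 x]
        linarith
      · have hx3 : x ∉ thickening d K := by
          intro hx4
          exact hxU (hd1U (thickening_mono (min_le_left _ _) _ hx4))
        rw [hzero x hx3]
        by_cases hxA : x ∈ A
        · simp [hxA, hxK, hxU]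
        · simp [hxA, hxU]
  have hint1 : Integrable ((A \ K).indicator (fun _ => (1 : ℝ))) := by
    rw [integrable_indicator_iff hm1]
    exact integrableOn_const (ne_top_of_lt hKm)
  have hint2 : Integrable ((U \ K).indicator (fun _ => (1 : ℝ))) := by
    rw [integrable_indicator_iff hm2]
    exact integrableOn_const (ne_top_of_lt hUm)
  calc ∫ x, |A.indicator (fun _ => (1 : ℝ)) x - h x|
      ≤ ∫ x, ((A \ K).indicator (fun _ => (1 : ℝ)) x + (U \ K).indicator (fun _ => (1 : ℝ)) x) :=
        integral_mono hint.abs (hint1.add hint2) hbound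
    _ = volume.real (A \ K) + volume.real (U \ K) := by
        rw [integral_add hint1 hint2, integral_indicator_const _ hm1, integral_indicator_const _ hm2]
        simp
    _ ≤ η / 2 + η / 2 := by
        gcongr
        · exact (ENNReal.toReal_le_of_le_ofReal (by linarith) hKm.le)
        · exact (ENNReal.toReal_le_of_le_ofReal (by linarith) hUm.le)
    _ = η := by ring

/-- line derivatives of compactly supported Lipschitz functions are integrable -/
theorem integrable_lineDeriv {h : (J → ℝ) → ℝ} {C : ℝ≥0} (hlip : LipschitzWith C h)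
    (hcs : HasCompactSupport h) (v : J → ℝ) :
    Integrable (fun x => lineDeriv ℝ h x v) := by
  have hmeas : AEStronglyMeasurable (fun x => lineDeriv ℝ h x v) volume :=
    aestronglyMeasurable_lineDeriv hlip.continuous volume
  have hbd : Integrable ((tsupport h).indicator (fun _ => (C : ℝ) * ‖v‖)) := by
    rw [integrable_indicator_iff hcs.isCompact.measurableSet]
    exact integrableOn_const hcs.isCompact.measure_lt_top.ne
  refine hbd.mono' hmeas (Eventually.of_forall fun x => ?_)
  by_cases hx : x ∈ tsupport h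
  · simp only [hx, indicator_of_mem]
    exact norm_lineDeriv_le_of_lipschitz ℝ hlip
  · simp only [hx, not_false_eq_true, indicator_of_notMem]
    have h0 : h =ᶠ[𝓝 x] fun _ => (0 : ℝ) := by
      have := notMem_tsupport_iff_eventuallyEq.1 hx
      exact this
    have : lineDeriv ℝ h x v = lineDeriv ℝ (fun _ => (0 : ℝ)) x v := h0.lineDeriv_eq
    rw [this]
    simp [lineDeriv]

variable {Ω : Type} [Fintype Ω] {X : Type} [NormedAddCommGroup X] [NormedSpace ℝ X]
  [CompleteSpace X]

theorem N1_nonneg (w : Ω → ℝ) : 0 ≤ N1 w := Finset.sum_nonneg fun _ _ => abs_nonneg _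

theorem N1_le (w : Ω → ℝ) : N1 w ≤ Fintype.card Ω * ‖w‖ := by
  unfold N1
  calc ∑ a, |w a| ≤ ∑ _a : Ω, ‖w‖ := Finset.sum_le_sum fun a _ => norm_le_pi_norm w a
    _ = Fintype.card Ω * ‖w‖ := by simp

theorem lip_of_N1 {g : (Ω → ℝ) → X} (h1 : ∀ w w', ‖g w - g w'‖ ≤ N1 (w - w')) :
    LipschitzWith (Fintype.card Ω) g := by
  apply LipschitzWith.of_dist_le_mul
  intro w w'
  rw [dist_eq_norm, dist_eq_norm]
  exact (h1 w w').trans (by simpa using N1_le (w - w'))

theorem moll_N1 {g : (Ω → ℝ) → X} (h1 : ∀ w w', ‖g w - g w'‖ ≤ N1 (w - w')) (m : ℕ)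
    (w w' : Ω → ℝ) : ‖moll g m w - moll g m w'‖ ≤ N1 (w - w') := by
  apply moll_sub_le (lip_of_N1 h1).continuous
  intro y
  refine (h1 _ _).trans (le_of_eq ?_)
  congr 1
  abel

theorem moll_close {g : (Ω → ℝ) → X} (h1 : ∀ w w', ‖g w - g w'‖ ≤ N1 (w - w')) (m : ℕ)
    (w : Ω → ℝ) : ‖moll g m w - g w‖ ≤ Fintype.card Ω * (1 / ((m : ℝ) + 1)) := by
  apply moll_dist_le (lip_of_N1 h1).continuous
  intro y hy
  exact (h1 _ _).trans ((N1_le _).trans (by gcongr))

theorem cont_D {g : (Ω → ℝ) → X} (hg : Continuous g) (m : ℕ)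
    (R : (J → ℝ) →L[ℝ] (Ω → ℝ)) (v : Ω → ℝ) :
    Continuous (fun x : J → ℝ => fderiv ℝ (moll g m) (R x) v) := by
  have h2 : Continuous (fderiv ℝ (moll g m)) :=
    (moll_contDiff hg m).continuous_fderiv (by simp)
  exact (h2.comp R.continuous).clm_apply continuous_const

theorem integrableOn_D {g : (Ω → ℝ) → X} (h1 : ∀ w w', ‖g w - g w'‖ ≤ N1 (w - w')) (m : ℕ)
    (R : (J → ℝ) →L[ℝ] (Ω → ℝ)) (v : Ω → ℝ) {A : Set (J → ℝ)}
    (hfin : volume A ≠ ∞) :
    IntegrableOn (fun x : J → ℝ => fderiv ℝ (moll g m) (R x) v) A := by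
  have hg := (lip_of_N1 h1).continuous
  refine Integrable.mono' (g := fun _ => N1 v) (integrableOn_const hfin)
    (cont_D hg m R v).aestronglyMeasurable (Eventually.of_forall fun x => ?_)
  exact moll_fderiv_le hg h1 m (R x) v

theorem key_bound {g : (Ω → ℝ) → X} (h1 : ∀ w w', ‖g w - g w'‖ ≤ N1 (w - w'))
    (R : (J → ℝ) →L[ℝ] (Ω → ℝ)) (e : J → ℝ) {A : Set (J → ℝ)} (hA : MeasurableSet A)
    (hfin : volume A ≠ ∞) {h : (J → ℝ) → ℝ} {C : ℝ≥0} {η : ℝ} (hlip : LipschitzWith C h)
    (hcs : HasCompactSupport h)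
    (hint : Integrable (fun x => A.indicator (fun _ => (1 : ℝ)) x - h x))
    (hη : ∫ x, |A.indicator (fun _ => (1 : ℝ)) x - h x| ≤ η) (m m' : ℕ) (φ : X →L[ℝ] ℝ) :
    |φ (∫ x in A, fderiv ℝ (moll g m) (R x) (R e)) -
      φ (∫ x in A, fderiv ℝ (moll g m') (R x) (R e))| ≤
      (2 * N1 (R e) * η + (Fintype.card Ω * (1 / ((m : ℝ) + 1)) +
        Fintype.card Ω * (1 / ((m' : ℝ) + 1))) * ∫ x, |lineDeriv ℝ h x (-e)|) * ‖φ‖ := by
  have hg := (lip_of_N1 h1).continuous
  set u : (J → ℝ) → ℝ := fun x => φ (moll g m (R x) - moll g m' (R x)) with hu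
  have hdm : ∀ k : ℕ, Differentiable ℝ (moll g k) :=
    fun k => (moll_contDiff hg k).differentiable (by simp)
  have hline : ∀ x, lineDeriv ℝ u x e =
      φ (fderiv ℝ (moll g m) (R x) (R e) - fderiv ℝ (moll g m') (R x) (R e)) := by
    intro x
    have e1 : ∀ k, HasFDerivAt (fun x => moll g k (R x))
        ((fderiv ℝ (moll g k) (R x)).comp R) x := fun k =>
      ((hdm k (R x)).hasFDerivAt).comp x R.hasFDerivAt
    have e2 : HasFDerivAt u (φ.comp ((fderiv ℝ (moll g m) (R x)).comp R -
        (fderiv ℝ (moll g m') (R x)).comp R)) x :=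
      φ.hasFDerivAt.comp x ((e1 m).sub (e1 m'))
    rw [(e2.hasLineDerivAt e).lineDeriv]
    simp
  have hulip : LipschitzWith (Real.toNNReal (2 * ‖φ‖ * (Fintype.card Ω * ‖R‖))) u := by
    apply LipschitzWith.of_dist_le_mul
    intro x y
    rw [Real.coe_toNNReal _ (by positivity), dist_eq_norm, dist_eq_norm]
    have e3 : ∀ k, ‖moll g k (R x) - moll g k (R y)‖ ≤ Fintype.card Ω * (‖R‖ * ‖x - y‖) := by
      intro k
      refine (moll_N1 h1 k _ _).trans ((N1_le _).trans ?_)
      rw [← map_sub]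
      gcongr
      exact R.le_opNorm _
    calc ‖u x - u y‖ = ‖φ ((moll g m (R x) - moll g m (R y)) -
          (moll g m' (R x) - moll g m' (R y)))‖ := by
          simp only [hu]; rw [← map_sub]; congr 2; abel
      _ ≤ ‖φ‖ * ‖(moll g m (R x) - moll g m (R y)) -
          (moll g m' (R x) - moll g m' (R y))‖ := φ.le_opNorm _
      _ ≤ ‖φ‖ * (Fintype.card Ω * (‖R‖ * ‖x - y‖) + Fintype.card Ω * (‖R‖ * ‖x - y‖)) := by
          gcongr
          exact (norm_sub_le _ _).trans (add_le_add (e3 m) (e3 m'))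
      _ = 2 * ‖φ‖ * (Fintype.card Ω * ‖R‖) * ‖x - y‖ := by ring
  set B := (Fintype.card Ω * (1 / ((m : ℝ) + 1)) + Fintype.card Ω * (1 / ((m' : ℝ) + 1))) with hB
  have hB0 : 0 ≤ B := by positivity
  have hub : ∀ x, |u x| ≤ ‖φ‖ * B := by
    intro x
    calc |u x| = ‖φ ((moll g m (R x) - g (R x)) - (moll g m' (R x) - g (R x)))‖ := by
          simp only [hu, Real.norm_eq_abs]; congr 2; abel
      _ ≤ ‖φ‖ * ‖(moll g m (R x) - g (R x)) - (moll g m' (R x) - g (R x))‖ := φ.le_opNorm _
      _ ≤ ‖φ‖ * B := by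
          gcongr
          exact (norm_sub_le _ _).trans (add_le_add (moll_close h1 m _) (moll_close h1 m' _))
  have hlb : ∀ x, |lineDeriv ℝ u x e| ≤ 2 * N1 (R e) * ‖φ‖ := by
    intro x
    rw [hline x]
    calc |φ (fderiv ℝ (moll g m) (R x) (R e) - fderiv ℝ (moll g m') (R x) (R e))|
        ≤ ‖φ‖ * ‖fderiv ℝ (moll g m) (R x) (R e) - fderiv ℝ (moll g m') (R x) (R e)‖ :=
          φ.le_opNorm _
      _ ≤ ‖φ‖ * (N1 (R e) + N1 (R e)) := by
          gcongr
          exact (norm_sub_le _ _).trans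
            (add_le_add (moll_fderiv_le hg h1 m _ _) (moll_fderiv_le hg h1 m' _ _))
      _ = 2 * N1 (R e) * ‖φ‖ := by ring
  have hlmeas : AEStronglyMeasurable (fun x => lineDeriv ℝ u x e) volume :=
    aestronglyMeasurable_lineDeriv hulip.continuous volume
  have step1 : φ (∫ x in A, fderiv ℝ (moll g m) (R x) (R e)) -
      φ (∫ x in A, fderiv ℝ (moll g m') (R x) (R e)) =
      ∫ x, lineDeriv ℝ u x e * A.indicator (fun _ => (1 : ℝ)) x := by
    rw [← ContinuousLinearMap.integral_comp_comm _ (integrableOn_D h1 m R (R e) hfin),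
      ← ContinuousLinearMap.integral_comp_comm _ (integrableOn_D h1 m' R (R e) hfin),
      ← integral_sub (φ.integrable_comp (integrableOn_D h1 m R (R e) hfin))
        (φ.integrable_comp (integrableOn_D h1 m' R (R e) hfin)),
      ← integral_indicator hA]
    congr 1
    ext x
    by_cases hx : x ∈ A
    · simp only [hx, indicator_of_mem, mul_one]
      rw [hline x, map_sub]
    · simp [hx]
  have hi1 : Integrable (fun x => lineDeriv ℝ u x e *
      (A.indicator (fun _ => (1 : ℝ)) x - h x)) :=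
    hint.bdd_mul hlmeas (Eventually.of_forall fun x => hlb x)
  have hhint : Integrable h := hlip.continuous.integrable_of_hasCompactSupport hcs
  have hi2 : Integrable (fun x => lineDeriv ℝ u x e * h x) :=
    hhint.bdd_mul hlmeas (Eventually.of_forall fun x => hlb x)
  have step2 : ∫ x, lineDeriv ℝ u x e * A.indicator (fun _ => (1 : ℝ)) x =
      (∫ x, lineDeriv ℝ u x e * (A.indicator (fun _ => (1 : ℝ)) x - h x)) +
      ∫ x, lineDeriv ℝ u x e * h x := by
    rw [← integral_add hi1 hi2]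
    congr 1
    ext x
    ring
  have b1 : |∫ x, lineDeriv ℝ u x e * (A.indicator (fun _ => (1 : ℝ)) x - h x)| ≤
      2 * N1 (R e) * ‖φ‖ * η := by
    have : ‖∫ x, lineDeriv ℝ u x e * (A.indicator (fun _ => (1 : ℝ)) x - h x)‖ ≤
        ∫ x, 2 * N1 (R e) * ‖φ‖ * |A.indicator (fun _ => (1 : ℝ)) x - h x| := by
      apply norm_integral_le_of_norm_le (hint.abs.const_mul _)
      refine Eventually.of_forall fun x => ?_
      rw [Real.norm_eq_abs, abs_mul]
      exact mul_le_mul_of_nonneg_right (hlb x) (abs_nonneg _)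
    rw [integral_const_mul] at this
    refine (this.trans ?_)
    have hN := N1_nonneg (R e)
    gcongr
  have b2 : |∫ x, lineDeriv ℝ u x e * h x| ≤ ‖φ‖ * B * ∫ x, |lineDeriv ℝ h x (-e)| := by
    rw [LipschitzWith.integral_lineDeriv_mul_eq hulip hlip hcs e]
    have hli := integrable_lineDeriv hlip hcs (-e)
    have : ‖∫ x, lineDeriv ℝ h x (-e) * u x‖ ≤ ∫ x, ‖φ‖ * B * |lineDeriv ℝ h x (-e)| := by
      apply norm_integral_le_of_norm_le (hli.abs.const_mul _)
      refine Eventually.of_forall fun x => ?_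
      rw [Real.norm_eq_abs, abs_mul, mul_comm]
      exact mul_le_mul_of_nonneg_right (hub x) (abs_nonneg _)
    rw [integral_const_mul] at this
    exact this
  rw [step1, step2]
  calc |(∫ x, lineDeriv ℝ u x e * (A.indicator (fun _ => (1 : ℝ)) x - h x)) +
      ∫ x, lineDeriv ℝ u x e * h x|
      ≤ 2 * N1 (R e) * ‖φ‖ * η + ‖φ‖ * B * ∫ x, |lineDeriv ℝ h x (-e)| :=
        (abs_add_le _ _).trans (add_le_add b1 b2)
    _ = _ := by ring

theorem exists_limit {g : (Ω → ℝ) → X} (h1 : ∀ w w', ‖g w - g w'‖ ≤ N1 (w - w'))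
    (R : (J → ℝ) →L[ℝ] (Ω → ℝ)) (e : J → ℝ) {A : Set (J → ℝ)} (hA : MeasurableSet A)
    (hfin : volume A ≠ ∞) :
    ∃ y : X, Tendsto (fun m => ∫ x in A, fderiv ℝ (moll g m) (R x) (R e)) atTop (𝓝 y) := by
  apply cauchySeq_tendsto_of_complete
  rw [Metric.cauchySeq_iff]
  intro ε hε
  set N := N1 (R e) with hN
  have hN0 : 0 ≤ N := N1_nonneg _
  have hη : 0 < ε / (8 * (N + 1)) := by positivity
  obtain ⟨h, C, hlip, hcs, hint, hle⟩ := exists_lip_approx hA hfin hη
  set D := ∫ x, |lineDeriv ℝ h x (-e)| with hD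
  have hD0 : 0 ≤ D := integral_nonneg fun x => abs_nonneg _
  have hlim : Tendsto (fun m : ℕ => (Fintype.card Ω : ℝ) * (1 / ((m : ℝ) + 1)) * D) atTop (𝓝 0) := by
    have := ((tendsto_one_div_add_atTop_nhds_zero_nat (𝕜 := ℝ)).const_mul
      (Fintype.card Ω : ℝ)).mul_const D
    simpa using this
  obtain ⟨M, hM⟩ := (hlim.eventually (gt_mem_nhds (show (0 : ℝ) < ε / 8 by positivity))).exists_forall_of_atTop
  refine ⟨M, fun m hm m' hm' => ?_⟩
  rw [dist_eq_norm]
  have hb : ‖(∫ x in A, fderiv ℝ (moll g m) (R x) (R e)) -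
      ∫ x in A, fderiv ℝ (moll g m') (R x) (R e)‖ ≤ ε / 2 := by
    apply NormedSpace.norm_le_dual_bound ℝ _ (by positivity)
    intro φ
    rw [map_sub, Real.norm_eq_abs]
    refine (key_bound h1 R e hA hfin hlip hcs hint hle m m' φ).trans ?_
    gcongr
    have a1 : 2 * N * (ε / (8 * (N + 1))) ≤ ε / 4 := by
      rw [show 2 * N * (ε / (8 * (N + 1))) = (N / (N + 1)) * (ε / 4) by field_simp; ring]
      have : N / (N + 1) ≤ 1 := by
        rw [div_le_one (by positivity)]; linarith
      nlinarith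
    have a2 := hM m hm
    have a3 := hM m' hm'
    calc 2 * N * (ε / (8 * (N + 1))) + (Fintype.card Ω * (1 / ((m : ℝ) + 1)) +
        Fintype.card Ω * (1 / ((m' : ℝ) + 1))) * D
        = 2 * N * (ε / (8 * (N + 1))) + Fintype.card Ω * (1 / ((m : ℝ) + 1)) * D +
        Fintype.card Ω * (1 / ((m' : ℝ) + 1)) * D := by ring
      _ ≤ ε / 4 + ε / 8 + ε / 8 := by linarith
      _ = ε / 2 := by ring
  linarith

end Pool.Agent.H273.Moll
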