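import Mathlib

set_option autoImplicit false
set_option linter.unusedSectionVars false

namespace Pool.Agent.H273.Cut

variable {E : Type} [NormedAddCommGroup E] [NormedSpace ℝ E]

/-- cut-off around c at scale ε -/
noncomputable def cut (ε : ℝ) (c z : E) : ℝ := max 0 (min 1 (2 - ‖z - c‖ / ε))

theorem cut_nonneg (ε : ℝ) (c z : E) : 0 ≤ cut ε c z := le_max_left _ _

theorem cut_le_one (ε : ℝ) (c z : E) : cut ε c z ≤ 1 :=
  max_le (by norm_num) (min_le_left _ _)

theorem cut_eq_one {ε : ℝ} (hε : 0 < ε) {c z : E} (h : ‖z - c‖ ≤ ε) : cut ε c z = 1 := by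
  have : ‖z - c‖ / ε ≤ 1 := by rw [div_le_one hε]; exact h
  unfold cut
  rw [min_eq_left (by linarith)]
  norm_num

theorem cut_eq_zero {ε : ℝ} (hε : 0 < ε) {c z : E} (h : 2 * ε ≤ ‖z - c‖) : cut ε c z = 0 := by
  have : 2 ≤ ‖z - c‖ / ε := by rw [le_div_iff₀ hε]; exact h
  unfold cut
  apply max_eq_left
  exact (min_le_right _ _).trans (by linarith)

theorem cut_lip {ε : ℝ} (hε : 0 < ε) (c z z' : E) :
    |cut ε c z - cut ε c z'| ≤ ‖z - z'‖ / ε := by
  have h1 : |cut ε c z - cut ε c z'| ≤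
      |min 1 (2 - ‖z - c‖ / ε) - min 1 (2 - ‖z' - c‖ / ε)| := by
    have := abs_max_sub_max_le_max 0 (min 1 (2 - ‖z - c‖ / ε)) 0 (min 1 (2 - ‖z' - c‖ / ε))
    refine this.trans ?_
    rw [sub_self, abs_zero]
    exact max_le (abs_nonneg _) le_rfl
  have h2 : |min 1 (2 - ‖z - c‖ / ε) - min 1 (2 - ‖z' - c‖ / ε)| ≤
      |(2 - ‖z - c‖ / ε) - (2 - ‖z' - c‖ / ε)| := by
    have := abs_min_sub_min_le_max 1 (2 - ‖z - c‖ / ε) 1 (2 - ‖z' - c‖ / ε)
    refine this.trans ?_
    rw [sub_self, abs_zero]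
    exact max_le (abs_nonneg _) le_rfl
  have h3 : |(2 - ‖z - c‖ / ε) - (2 - ‖z' - c‖ / ε)| ≤ ‖z - z'‖ / ε := by
    have e : (2 - ‖z - c‖ / ε) - (2 - ‖z' - c‖ / ε) = (‖z' - c‖ - ‖z - c‖) / ε := by ring
    rw [e, abs_div, abs_of_pos hε]
    gcongr
    have := abs_norm_sub_norm_le (z' - c) (z - c)
    refine this.trans (le_of_eq ?_)
    rw [← norm_neg]; congr 1; abel
  exact h1.trans (h2.trans h3)

/-- product of a cut-off with a Lipschitz function vanishing at the centre -/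
theorem mul_cut_lip {ε : ℝ} (hε : 0 < ε) (c : E) {u : E → ℝ} {C : ℝ} (hC : 0 ≤ C)
    (hu : ∀ z z', |u z - u z'| ≤ C * ‖z - z'‖) (hc : u c = 0) (z z' : E) :
    |cut ε c z * u z - cut ε c z' * u z'| ≤ 3 * C * ‖z - z'‖ := by
  have key : ∀ z z' : E, ‖z' - c‖ ≤ 2 * ε →
      |cut ε c z * u z - cut ε c z' * u z'| ≤ 3 * C * ‖z - z'‖ := by
    intro z z' hz'
    have e : cut ε c z * u z - cut ε c z' * u z' =
        cut ε c z * (u z - u z') + u z' * (cut ε c z - cut ε c z') := by ring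
    rw [e]
    have b1 : |cut ε c z * (u z - u z')| ≤ C * ‖z - z'‖ := by
      rw [abs_mul, abs_of_nonneg (cut_nonneg ε c z)]
      calc cut ε c z * |u z - u z'| ≤ 1 * (C * ‖z - z'‖) := by
            apply mul_le_mul (cut_le_one ε c z) (hu z z') (abs_nonneg _) (by norm_num)
        _ = C * ‖z - z'‖ := one_mul _
    have b2 : |u z' * (cut ε c z - cut ε c z')| ≤ 2 * C * ‖z - z'‖ := by
      rw [abs_mul]
      have h1 : |u z'| ≤ C * (2 * ε) := by
        have := hu z' c
        rw [hc, sub_zero] at this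
        exact this.trans (by gcongr)
      calc |u z'| * |cut ε c z - cut ε c z'| ≤ (C * (2 * ε)) * (‖z - z'‖ / ε) :=
            mul_le_mul h1 (cut_lip hε c z z') (abs_nonneg _) (by positivity)
        _ = 2 * C * ‖z - z'‖ := by field_simp
    calc |cut ε c z * (u z - u z') + u z' * (cut ε c z - cut ε c z')|
        ≤ C * ‖z - z'‖ + 2 * C * ‖z - z'‖ := (abs_add_le _ _).trans (add_le_add b1 b2)
      _ = 3 * C * ‖z - z'‖ := by ring
  by_cases h1 : ‖z' - c‖ ≤ 2 * ε
  · exact key z z' h1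
  · by_cases h2 : ‖z - c‖ ≤ 2 * ε
    · rw [abs_sub_comm, norm_sub_rev]
      exact key z' z h2
    · rw [cut_eq_zero hε (le_of_lt (not_le.1 h1)), cut_eq_zero hε (le_of_lt (not_le.1 h2))]
      simp only [zero_mul, sub_self, abs_zero]
      positivity

/-- dead zone -/
noncomputable def dz (R t : ℝ) : ℝ := max (t - R) 0 - max (-t - R) 0

theorem dz_lip {R : ℝ} (_hR : 0 ≤ R) (t t' : ℝ) : |dz R t - dz R t'| ≤ |t - t'| := by
  have hmono : ∀ s s' : ℝ, s' ≤ s → 0 ≤ dz R s - dz R s' ∧ dz R s - dz R s' ≤ s - s' := by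
    intro s s' h
    unfold dz
    rcases max_cases (s - R) 0 with h1 | h1 <;> rcases max_cases (-s - R) 0 with h2 | h2 <;>
      rcases max_cases (s' - R) 0 with h3 | h3 <;> rcases max_cases (-s' - R) 0 with h4 | h4 <;>
      constructor <;> linarith
  rcases le_total t' t with h | h
  · obtain ⟨h1, h2⟩ := hmono t t' h
    rw [abs_of_nonneg h1, abs_of_nonneg (by linarith)]
    exact h2
  · obtain ⟨h1, h2⟩ := hmono t' t h
    rw [abs_sub_comm, abs_of_nonneg h1, abs_sub_comm, abs_of_nonneg (by linarith)]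
    exact h2

theorem dz_zero {R : ℝ} (hR : 0 ≤ R) {t : ℝ} (ht : |t| ≤ R) : dz R t = 0 := by
  obtain ⟨h1, h2⟩ := abs_le.1 ht
  unfold dz
  rw [max_eq_right (by linarith), max_eq_right (by linarith)]
  ring

theorem sub_dz_le {R : ℝ} (hR : 0 ≤ R) (t : ℝ) : |t - dz R t| ≤ R := by
  unfold dz
  rw [abs_le]
  rcases max_cases (t - R) 0 with h1 | h1 <;> rcases max_cases (-t - R) 0 with h2 | h2 <;>
    constructor <;> linarith

/-- sums of disjointly supported Lipschitz functions -/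
theorem sum_disjoint_lip {ι : Type} [DecidableEq ι] (s : Finset ι) (G : ι → E → ℝ) {C : ℝ}
    (hC : 0 ≤ C)
    (hG : ∀ i ∈ s, ∀ z z', |G i z - G i z'| ≤ C * ‖z - z'‖)
    (hdis : ∀ i ∈ s, ∀ j ∈ s, i ≠ j → ∀ z, G i z = 0 ∨ G j z = 0) (z z' : E) :
    |∑ i ∈ s, G i z - ∑ i ∈ s, G i z'| ≤ 2 * C * ‖z - z'‖ := by
  classical
  set s1 := s.filter (fun i => G i z ≠ 0) with hs1
  set s2 := s.filter (fun i => G i z' ≠ 0) with hs2
  have c1 : s1.card ≤ 1 := by
    rw [Finset.card_le_one]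
    intro i hi j hj
    simp only [hs1, Finset.mem_filter] at hi hj
    by_contra hne
    rcases hdis i hi.1 j hj.1 hne z with h | h
    · exact hi.2 h
    · exact hj.2 h
  have c2 : s2.card ≤ 1 := by
    rw [Finset.card_le_one]
    intro i hi j hj
    simp only [hs2, Finset.mem_filter] at hi hj
    by_contra hne
    rcases hdis i hi.1 j hj.1 hne z' with h | h
    · exact hi.2 h
    · exact hj.2 h
  rw [← Finset.sum_sub_distrib]
  have e : ∑ i ∈ s, (G i z - G i z') = ∑ i ∈ s1 ∪ s2, (G i z - G i z') := by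
    symm
    apply Finset.sum_subset
    · intro i hi
      simp only [hs1, hs2, Finset.mem_union, Finset.mem_filter] at hi
      rcases hi with h | h <;> exact h.1
    · intro i hi hni
      simp only [hs1, hs2, Finset.mem_union, Finset.mem_filter, not_or, not_and, not_not] at hni
      rw [hni.1 hi, hni.2 hi, sub_self]
  rw [e]
  calc |∑ i ∈ s1 ∪ s2, (G i z - G i z')| ≤ ∑ i ∈ s1 ∪ s2, |G i z - G i z'| :=
        Finset.abs_sum_le_sum_abs _ _
    _ ≤ ∑ _i ∈ s1 ∪ s2, C * ‖z - z'‖ := by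
        apply Finset.sum_le_sum
        intro i hi
        apply hG i
        simp only [hs1, hs2, Finset.mem_union, Finset.mem_filter] at hi
        rcases hi with h | h <;> exact h.1
    _ = (s1 ∪ s2).card * (C * ‖z - z'‖) := by simp
    _ ≤ 2 * (C * ‖z - z'‖) := by
        gcongr
        have : (s1 ∪ s2).card ≤ 2 := (Finset.card_union_le _ _).trans (by omega)
        exact_mod_cast this
    _ = 2 * C * ‖z - z'‖ := by ring

end Pool.Agent.H273.Cut
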