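import Mathlib
import Pool.Agent.H273.Cut

set_option autoImplicit false
set_option linter.unusedSectionVars false

open MeasureTheory Filter Topology Set Metric
open scoped NNReal ENNReal

namespace Pool.Agent.H273.Hat

variable {E : Type} [NormedAddCommGroup E] [NormedSpace ℝ E]
variable {X : Type} [NormedAddCommGroup X] [NormedSpace ℝ X]

/-- φ represents the function G modulo constants -/
def IsHat (δ : E → X) (φ : X →L[ℝ] ℝ) (G : E → ℝ) : Prop := ∀ z, φ (δ z) = G z - G 0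

/-- the universal property for scalar functions -/
def Univ (δ : E → X) : Prop := ∀ (f : E → ℝ) (K : ℝ≥0), LipschitzWith K f → f 0 = 0 →
  ∃ T : X →L[ℝ] ℝ, ‖T‖ ≤ (K : ℝ) ∧ ∀ m, T (δ m) = f m

theorem exists_hat {δ : E → X} (hu : Univ δ) {G : E → ℝ} {C : ℝ} (hC : 0 ≤ C)
    (hG : ∀ z z', |G z - G z'| ≤ C * ‖z - z'‖) :
    ∃ φ : X →L[ℝ] ℝ, ‖φ‖ ≤ C ∧ IsHat δ φ G := by
  have hl : LipschitzWith C.toNNReal (fun z => G z - G 0) := by
    apply LipschitzWith.of_dist_le_mul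
    intro z z'
    rw [Real.coe_toNNReal _ hC, Real.dist_eq, dist_eq_norm]
    have e : G z - G 0 - (G z' - G 0) = G z - G z' := by ring
    rw [e]
    exact hG z z'
  obtain ⟨φ, h1, h2⟩ := hu _ _ hl (by simp)
  rw [Real.coe_toNNReal _ hC] at h1
  exact ⟨φ, h1, h2⟩

theorem hat_unique {δ : E → X} (hd : Dense ((Submodule.span ℝ (Set.range δ) : Submodule ℝ X) : Set X))
    {φ ψ : X →L[ℝ] ℝ} (h : ∀ z, φ (δ z) = ψ (δ z)) : φ = ψ := by
  apply ContinuousLinearMap.ext_on hd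
  rintro _ ⟨z, rfl⟩
  exact h z

theorem span_bound {δ : E → X} {ν : X} (hν : ν ∈ Submodule.span ℝ (Set.range δ)) :
    ∃ M : ℝ, 0 ≤ M ∧ ∀ (φ : X →L[ℝ] ℝ) (ρ : ℝ), 0 ≤ ρ → (∀ z, |φ (δ z)| ≤ ρ) → |φ ν| ≤ M * ρ := by
  induction hν using Submodule.span_induction with
  | mem x hx =>
    obtain ⟨z, rfl⟩ := hx
    exact ⟨1, zero_le_one, fun φ ρ _ h => by rw [one_mul]; exact h z⟩
  | zero => exact ⟨0, le_rfl, fun φ ρ _ h => by simp⟩
  | add x y _ _ hx hy =>
    obtain ⟨M1, hM1, h1⟩ := hx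
    obtain ⟨M2, hM2, h2⟩ := hy
    refine ⟨M1 + M2, add_nonneg hM1 hM2, fun φ ρ hρ h => ?_⟩
    rw [map_add, add_mul]
    exact (abs_add_le _ _).trans (add_le_add (h1 φ ρ hρ h) (h2 φ ρ hρ h))
  | smul a x _ hx =>
    obtain ⟨M1, hM1, h1⟩ := hx
    refine ⟨|a| * M1, by positivity, fun φ ρ hρ h => ?_⟩
    rw [map_smul, smul_eq_mul, abs_mul, mul_assoc]
    exact mul_le_mul_of_nonneg_left (h1 φ ρ hρ h) (abs_nonneg _)

/-- elements of X are weak-star continuous on bounded sets -/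
theorem wstar {δ : E → X} (hd : Dense ((Submodule.span ℝ (Set.range δ) : Submodule ℝ X) : Set X))
    (μ : X) {C η : ℝ} (hC : 0 ≤ C) (hη : 0 < η) :
    ∃ ρ₀ : ℝ, 0 < ρ₀ ∧ ∀ (φ : X →L[ℝ] ℝ) (ρ : ℝ), 0 ≤ ρ → ρ ≤ ρ₀ → ‖φ‖ ≤ C →
      (∀ z, |φ (δ z)| ≤ ρ) → |φ μ| ≤ η := by
  obtain ⟨ν, hν, hdist⟩ := Metric.dense_iff.1 hd μ (η / (2 * (C + 1))) (by positivity)
  rw [mem_ball, dist_eq_norm] at hν
  obtain ⟨M, hM, hb⟩ := span_bound (δ := δ) hdist
  refine ⟨η / (2 * (M + 1)), by positivity, fun φ ρ hρ hρ0 hφ h => ?_⟩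
  have e : φ μ = φ ν - φ (ν - μ) := by rw [map_sub]; ring
  rw [e]
  have b1 : |φ ν| ≤ η / 2 := by
    calc |φ ν| ≤ M * ρ := hb φ ρ hρ h
      _ ≤ (M + 1) * (η / (2 * (M + 1))) := by
          apply mul_le_mul (by linarith) hρ0 hρ (by positivity)
      _ = η / 2 := by field_simp
  have b2 : |φ (ν - μ)| ≤ η / 2 := by
    calc |φ (ν - μ)| ≤ ‖φ‖ * ‖ν - μ‖ := φ.le_opNorm _
      _ ≤ (C + 1) * (η / (2 * (C + 1))) := by
          apply mul_le_mul (by linarith) hν.le (norm_nonneg _) (by positivity)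
      _ = η / 2 := by field_simp
  calc |φ ν - φ (ν - μ)| ≤ |φ ν| + |φ (ν - μ)| := abs_sub _ _
    _ ≤ η := by linarith

/-- finite additivity along a measurable finite-range map -/
theorem sum_fiber {α β γ V : Type} [MeasurableSpace α] [AddCommGroup V] [DecidableEq β]
    (T : Set α → V)
    (hadd : ∀ A B, MeasurableSet A → MeasurableSet B → Disjoint A B → T (A ∪ B) = T A + T B)
    (S : α → γ) (t : Finset γ) (hmeas : ∀ C, MeasurableSet (S ⁻¹' {C})) :
    T (⋃ C ∈ t, S ⁻¹' {C}) = ∑ C ∈ t, T (S ⁻¹' {C}) := by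
  classical
  induction t using Finset.induction_on with
  | empty =>
    simp only [Finset.notMem_empty, iUnion_of_empty, iUnion_empty, Finset.sum_empty]
    have := hadd ∅ ∅ MeasurableSet.empty MeasurableSet.empty (by simp)
    simpa using this
  | insert c t hc ih =>
    rw [Finset.sum_insert hc, ← ih, Finset.set_biUnion_insert]
    apply hadd _ _ (hmeas c)
    · exact Finset.measurableSet_biUnion _ fun C _ => hmeas C
    · rw [Set.disjoint_left]
      intro x hx hx2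
      simp only [mem_iUnion, exists_prop] at hx2
      obtain ⟨C, hC, hxC⟩ := hx2
      have e1 : S x = c := hx
      have e2 : S x = C := hxC
      rw [← e1, e2] at hc
      exact hc hC

theorem sum_refine {α β γ V : Type} [MeasurableSpace α] [AddCommGroup V] [DecidableEq β]
    (T : Set α → V)
    (hadd : ∀ A B, MeasurableSet A → MeasurableSet B → Disjoint A B → T (A ∪ B) = T A + T B)
    (S : α → γ) (q : γ → β) (t : Finset γ) (u : Finset β) (hS : ∀ x, S x ∈ t)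
    (hq : ∀ C ∈ t, q C ∈ u)
    (hmeas : ∀ C, MeasurableSet (S ⁻¹' {C})) (Φ : β → V → ℝ)
    (hΦ0 : ∀ p, Φ p 0 = 0) (hΦ : ∀ p x y, Φ p (x + y) = Φ p x + Φ p y) :
    ∑ p ∈ u, Φ p (T ((fun x => q (S x)) ⁻¹' {p})) = ∑ C ∈ t, Φ (q C) (T (S ⁻¹' {C})) := by
  classical
  rw [← Finset.sum_fiberwise_of_maps_to hq]
  refine Finset.sum_congr rfl fun p _ => ?_
  have e1 : (fun x => q (S x)) ⁻¹' {p} = ⋃ C ∈ t.filter (fun C => q C = p), S ⁻¹' {C} := by
    ext x
    simp only [mem_preimage, mem_singleton_iff, Finset.mem_filter, mem_iUnion, exists_prop,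
      exists_eq_right']
    constructor
    · intro h; exact ⟨hS x, h⟩
    · intro h; exact h.2
  rw [e1, sum_fiber (β := β) T hadd S _ hmeas]
  have hsum : ∀ (v : Finset γ) (W : γ → V), Φ p (∑ C ∈ v, W C) = ∑ C ∈ v, Φ p (W C) := by
    intro v W
    induction v using Finset.induction_on with
    | empty => simp [hΦ0]
    | insert c v hc ih => rw [Finset.sum_insert hc, Finset.sum_insert hc, hΦ, ih]
  rw [hsum]
  refine Finset.sum_congr rfl fun C hC => ?_
  rw [(Finset.mem_filter.1 hC).2]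

end Pool.Agent.H273.Hat
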