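import Mathlib
import Pool.Agent.H273.Cauchy

set_option autoImplicit false
set_option linter.unusedSectionVars false

open MeasureTheory Filter Topology Set Metric
open scoped Convolution NNReal ENNReal

namespace Pool.Agent.H273.Moll

variable {J : Type} [Fintype J]
variable {Ω : Type} [Fintype Ω] [DecidableEq Ω] {X : Type} [NormedAddCommGroup X] [NormedSpace ℝ X]
  [CompleteSpace X]

/-- ultralimits of bounded sequences in the bidual -/
theorem ultralim (U : Ultrafilter ℕ) (x : ℕ → X) (C : ℝ) (hC : ∀ m, ‖x m‖ ≤ C) :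
    ∃ Ξ : (X →L[ℝ] ℝ) →L[ℝ] ℝ, ‖Ξ‖ ≤ C ∧
      ∀ φ : X →L[ℝ] ℝ, Tendsto (fun m => φ (x m)) U (𝓝 (Ξ φ)) := by
  have hex : ∀ φ : X →L[ℝ] ℝ, ∃ t : ℝ, |t| ≤ C * ‖φ‖ ∧ Tendsto (fun m => φ (x m)) U (𝓝 t) := by
    intro φ
    have hb : ∀ m, φ (x m) ∈ Icc (-(C * ‖φ‖)) (C * ‖φ‖) := by
      intro m
      rw [mem_Icc, ← abs_le]
      calc |φ (x m)| ≤ ‖φ‖ * ‖x m‖ := φ.le_opNorm _
        _ ≤ ‖φ‖ * C := by gcongr; exact hC m
        _ = C * ‖φ‖ := mul_comm _ _
    have hmem2 : Icc (-(C * ‖φ‖)) (C * ‖φ‖) ∈ (U.map (fun m => φ (x m)) : Filter _) :=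
      Ultrafilter.mem_map.2 (univ_mem' hb)
    obtain ⟨t, ht, hle⟩ := (isCompact_Icc (a := -(C * ‖φ‖)) (b := C * ‖φ‖)).ultrafilter_le_nhds
      (U.map (fun m => φ (x m))) (le_principal_iff.2 hmem2)
    exact ⟨t, abs_le.2 ht, hle⟩
  choose ξ hξb hξ using hex
  have hC0 : 0 ≤ C := (norm_nonneg _).trans (hC 0)
  refine ⟨LinearMap.mkContinuous
    { toFun := ξ
      map_add' := fun φ ψ => ?_
      map_smul' := fun c φ => ?_ } C (fun φ => hξb φ), ?_, fun φ => hξ φ⟩
  · have h1 := hξ (φ + ψ)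
    have h2 := (hξ φ).add (hξ ψ)
    exact tendsto_nhds_unique h1 h2
  · have h1 := hξ (c • φ)
    have h2 := (hξ φ).const_mul c
    exact tendsto_nhds_unique h1 h2
  · exact LinearMap.mkContinuous_norm_le _ hC0 _

/-- the unit cube -/
def Q (J : Type) [Fintype J] : Set (J → ℝ) := Icc 0 1

theorem measurableSet_Q : MeasurableSet (Q J) := measurableSet_Icc

theorem volume_Q : volume (Q J) = 1 := by
  simp [Q, Real.volume_Icc_pi]

theorem volume_inter_Q_ne_top (A : Set (J → ℝ)) : volume (A ∩ Q J) ≠ ∞ :=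
  ne_top_of_le_ne_top (by rw [volume_Q]; simp) (measure_mono inter_subset_right)

noncomputable def theta (g : (Ω → ℝ) → X) (R : (J → ℝ) →L[ℝ] (Ω → ℝ)) (a : Ω)
    (A : Set (J → ℝ)) (m : ℕ) : X :=
  ∫ x in A ∩ Q J, fderiv ℝ (moll g m) (R x) (Pi.single a 1)

theorem exists_T {g : (Ω → ℝ) → X} (h1 : ∀ w w', ‖g w - g w'‖ ≤ N1 (w - w'))
    (R : (J → ℝ) →L[ℝ] (Ω → ℝ)) (P : ((X →L[ℝ] ℝ) →L[ℝ] ℝ) →L[ℝ] X)
    (hP : ∀ x : X, P (ContinuousLinearMap.apply ℝ ℝ x) = x) {K : ℝ} (hK0 : 0 ≤ K)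
    (hK : ∀ y, ‖P y‖ ≤ K * ‖y‖) :
    ∃ T : Ω → Set (J → ℝ) → X,
      (∀ a A B, MeasurableSet A → MeasurableSet B → Disjoint A B →
        T a (A ∪ B) = T a A + T a B) ∧
      (∀ a A, MeasurableSet A → ‖T a A‖ ≤ K * volume.real (A ∩ Q J)) ∧
      (∀ A, MeasurableSet A → ∀ (e : J → ℝ) (φ : X →L[ℝ] ℝ) (ℓ : (Ω → ℝ) →L[ℝ] ℝ) (c r : ℝ),
        0 < r → (∀ x ∈ A ∩ Q J, ∀ y, ‖y - R x‖ < r → φ (g y) = ℓ y + c) →
        φ (∑ a, (R e a) • T a A) = volume.real (A ∩ Q J) * ℓ (R e)) := by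
  classical
  have hg := (lip_of_N1 h1).continuous
  let U : Ultrafilter ℕ := Filter.hyperfilter ℕ
  have hN : ∀ a : Ω, N1 (Pi.single a (1 : ℝ) : Ω → ℝ) = 1 := by
    intro a
    unfold N1
    rw [Finset.sum_eq_single a]
    · simp
    · intro b _ hb; simp [hb]
    · simp
  have hbound : ∀ a A m, ‖theta g R a A m‖ ≤ volume.real (A ∩ Q J) := by
    intro a A m
    have := norm_setIntegral_le_of_norm_le_const (μ := volume) (s := A ∩ Q J)
      (f := fun x => fderiv ℝ (moll g m) (R x) (Pi.single a 1)) (C := 1)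
      (lt_top_iff_ne_top.2 (volume_inter_Q_ne_top A))
      (fun x _ => (moll_fderiv_le hg h1 m (R x) (Pi.single a 1)).trans (hN a).le)
    rw [one_mul] at this
    exact this
  choose Θ hΘn hΘ using fun (a : Ω) (A : Set (J → ℝ)) =>
    ultralim U (theta g R a A) _ (hbound a A)
  have hint : ∀ (m : ℕ) (v : Ω → ℝ) (A : Set (J → ℝ)),
      IntegrableOn (fun x : J → ℝ => fderiv ℝ (moll g m) (R x) v) (A ∩ Q J) := fun m v A =>
    integrableOn_D h1 m R v (volume_inter_Q_ne_top A)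
  refine ⟨fun a A => P (Θ a A), ?_, ?_, ?_⟩
  · intro a A B hA hB hAB
    have hadd : Θ a (A ∪ B) = Θ a A + Θ a B := by
      ext φ
      have e1 := hΘ a (A ∪ B) φ
      have e2 := (hΘ a A φ).add (hΘ a B φ)
      have e3 : (fun m => φ (theta g R a (A ∪ B) m)) =
          fun m => φ (theta g R a A m) + φ (theta g R a B m) := by
        ext m
        rw [← map_add]
        congr 1
        unfold theta
        rw [union_inter_distrib_right, setIntegral_union (hAB.mono inter_subset_left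
          inter_subset_left) (hB.inter measurableSet_Q) (hint m _ A) (hint m _ B)]
      rw [e3] at e1
      exact tendsto_nhds_unique e1 e2
    simp only [hadd, map_add]
  · intro a A hA
    exact (hK _).trans (mul_le_mul_of_nonneg_left (hΘn a A) hK0)
  · intro A hA e φ ℓ c r hr haff
    obtain ⟨y, hy⟩ := exists_limit h1 R e (hA.inter measurableSet_Q) (volume_inter_Q_ne_top A)
    have hsum : ∀ m, ∫ x in A ∩ Q J, fderiv ℝ (moll g m) (R x) (R e) =
        ∑ a, (R e a) • theta g R a A m := by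
      intro m
      have e4 : ∀ x, fderiv ℝ (moll g m) (R x) (R e) =
          ∑ a, (R e a) • fderiv ℝ (moll g m) (R x) (Pi.single a 1) := by
        intro x
        conv_lhs => rw [pi_eq_sum_univ' (R e)]
        rw [map_sum]
        refine Finset.sum_congr rfl fun a _ => ?_
        rw [map_smul]
      simp_rw [e4]
      rw [integral_finsetSum]
      · refine Finset.sum_congr rfl fun a _ => ?_
        rw [integral_smul]
        rfl
      · intro a _
        exact (hint m _ A).smul _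
    have hyU : Tendsto (fun m => ∑ a, (R e a) • theta g R a A m) U (𝓝 y) := by
      have := hy.mono_left (Nat.hyperfilter_le_atTop)
      simpa only [hsum] using this
    have happ : ∑ a, (R e a) • Θ a A = ContinuousLinearMap.apply ℝ ℝ y := by
      ext ψ
      have e5 : Tendsto (fun m => ψ (∑ a, (R e a) • theta g R a A m)) U (𝓝 (ψ y)) :=
        (ψ.continuous.tendsto y).comp hyU
      have e6 : Tendsto (fun m => ψ (∑ a, (R e a) • theta g R a A m)) U
          (𝓝 (∑ a, (R e a) • Θ a A ψ)) := by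
        simp only [map_sum, map_smul]
        exact tendsto_finsetSum _ fun a _ => (hΘ a A ψ).const_smul _
      have e7 := tendsto_nhds_unique e6 e5
      simpa using e7
    have hTy : ∑ a, (R e a) • P (Θ a A) = y := by
      rw [← hP y, ← happ, map_sum]
      simp only [map_smul]
    rw [hTy]
    have hev : ∀ᶠ m : ℕ in atTop, φ (∫ x in A ∩ Q J, fderiv ℝ (moll g m) (R x) (R e)) =
        volume.real (A ∩ Q J) * ℓ (R e) := by
      have hlim := (tendsto_one_div_add_atTop_nhds_zero_nat (𝕜 := ℝ)).eventually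
        (gt_mem_nhds hr)
      filter_upwards [hlim] with m hm
      rw [← ContinuousLinearMap.integral_comp_comm _ (hint m _ A)]
      rw [setIntegral_congr_fun (hA.inter measurableSet_Q) (g := fun _ => ℓ (R e))]
      · simp
      · intro x hx
        exact moll_fderiv_local hg m (R x) φ ℓ c r hm (haff x hx) (R e)
    have h8 : Tendsto (fun m => φ (∫ x in A ∩ Q J, fderiv ℝ (moll g m) (R x) (R e))) atTop
        (𝓝 (φ y)) := (φ.continuous.tendsto y).comp hy
    have h9 : Tendsto (fun m => φ (∫ x in A ∩ Q J, fderiv ℝ (moll g m) (R x) (R e))) atTop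
        (𝓝 (volume.real (A ∩ Q J) * ℓ (R e))) :=
      tendsto_const_nhds.congr' (hev.mono fun m hm => hm.symm)
    exact tendsto_nhds_unique h8 h9

end Pool.Agent.H273.Moll
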