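import Mathlib
import Pool.Agent.H273.Op
import Pool.Agent.H273.Hat

set_option autoImplicit false
set_option linter.unusedSectionVars false

open MeasureTheory Filter Topology Set Metric
open scoped NNReal ENNReal

namespace Pool.Agent.H273.Scale

open Pool.Agent.H273.Moll Pool.Agent.H273.Hat Pool.Agent.H273.Cut

variable {E : Type} [NormedAddCommGroup E] [NormedSpace ℝ E]
variable {X : Type} [NormedAddCommGroup X] [NormedSpace ℝ X] [CompleteSpace X]
variable {J Ω : Type} [Fintype J] [Fintype Ω] [DecidableEq J] [DecidableEq Ω]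

/-- the linear map with rows r -/
noncomputable def Rmap (r : J → Ω → ℝ) : (J → ℝ) →L[ℝ] (Ω → ℝ) :=
  ContinuousLinearMap.pi fun a => ∑ j, (r j a) • ContinuousLinearMap.proj (R := ℝ) j

theorem Rmap_apply (r : J → Ω → ℝ) (x : J → ℝ) (a : Ω) : Rmap r x a = ∑ j, r j a * x j := by
  simp [Rmap]

theorem Rmap_single (r : J → Ω → ℝ) (j : J) : Rmap r (Pi.single j 1) = r j := by
  ext a
  rw [Rmap_apply, Finset.sum_eq_single j]
  · simp
  · intro b _ hb; simp [hb]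
  · simp

theorem exists_part {ε : ℝ} (hε : 0 < ε) : ∃ (s : (J → ℝ) → (J → ℝ)) (rng : Finset (J → ℝ)),
    (∀ x, s x ∈ rng) ∧ (∀ p, MeasurableSet (s ⁻¹' {p})) ∧ ∀ x ∈ Q J, ‖s x - x‖ ≤ ε := by
  have hQ : IsCompact (Q J) := isCompact_Icc
  obtain ⟨t, ht⟩ := hQ.elim_finite_subcover
    (fun k : ℕ => ball (TopologicalSpace.denseSeq (J → ℝ) k) ε) (fun k => isOpen_ball) (by
      intro x _
      have hx : x ∈ closure (Set.range (TopologicalSpace.denseSeq (J → ℝ))) :=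
        TopologicalSpace.denseRange_denseSeq (J → ℝ) x
      obtain ⟨y, ⟨k, rfl⟩, hk⟩ := Metric.mem_closure_iff.1 hx ε hε
      exact mem_iUnion.2 ⟨k, hk⟩)
  set N := t.sup id with hN
  set s := SimpleFunc.nearestPt (TopologicalSpace.denseSeq (J → ℝ)) N with hs
  refine ⟨s, s.range, fun x => s.mem_range_self x, fun p => s.measurableSet_fiber p, ?_⟩
  intro x hx
  obtain ⟨k, hk, hxk⟩ := mem_iUnion₂.1 (ht hx)
  have hkN : k ≤ N := Finset.le_sup (f := id) hk
  have h1 := SimpleFunc.edist_nearestPt_le (TopologicalSpace.denseSeq (J → ℝ)) x hkN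
  rw [← dist_eq_norm]
  have h2 : edist (s x) x ≤ ENNReal.ofReal ε := by
    refine h1.trans ?_
    rw [edist_dist]
    apply ENNReal.ofReal_le_ofReal
    rw [dist_comm]
    exact (mem_ball.1 hxk).le
  rw [edist_dist] at h2
  exact (ENNReal.ofReal_le_ofReal_iff hε.le).1 h2

theorem exists_H {δ : E → X} (hu : Univ δ)
    (hd : Dense ((Submodule.span ℝ (Set.range δ) : Submodule ℝ X) : Set X))
    {ε : ℝ} (hε : 0 < ε) (c : E) (Λ : (Ω → ℝ) →ₗ[ℝ] (E →L[ℝ] ℝ)) :
    ∃ H : (Ω → ℝ) →ₗ[ℝ] (X →L[ℝ] ℝ),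
      (∀ v, IsHat δ (H v) (fun z => cut ε c z * (Λ v z - Λ v c))) ∧
      ∀ v κ, 0 ≤ κ → (∀ z, |Λ v z| ≤ κ * ‖z‖) → ‖H v‖ ≤ 3 * κ := by
  have hex : ∀ v κ, 0 ≤ κ → (∀ z, |Λ v z| ≤ κ * ‖z‖) →
      ∃ φ : X →L[ℝ] ℝ, ‖φ‖ ≤ 3 * κ ∧ IsHat δ φ (fun z => cut ε c z * (Λ v z - Λ v c)) := by
    intro v κ hκ hb
    apply exists_hat hu (by positivity)
    intro z z'
    apply mul_cut_lip hε c hκ
    · intro y y'
      have e : Λ v y - Λ v c - (Λ v y' - Λ v c) = Λ v (y - y') := by rw [map_sub]; ring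
      rw [e]
      exact hb _
    · ring
  choose H0 hH0n hH0 using fun v => hex v ‖Λ v‖ (norm_nonneg _) (fun z => (Λ v).le_opNorm z)
  refine ⟨{ toFun := H0, map_add' := ?_, map_smul' := ?_ }, hH0, ?_⟩
  · intro v w
    apply hat_unique hd
    intro z
    rw [add_apply, hH0, hH0, hH0]
    simp only [map_add, add_apply]
    ring
  · intro a v
    apply hat_unique hd
    intro z
    rw [RingHom.id_apply, smul_apply, hH0, hH0]
    simp only [map_smul, smul_apply, smul_eq_mul]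
    ring
  · intro v κ hκ hb
    obtain ⟨φ, h1, h2⟩ := hex v κ hκ hb
    have : H0 v = φ := hat_unique hd fun z => by rw [hH0, h2]
    show ‖H0 v‖ ≤ _
    rw [this]
    exact h1

/-- hypotheses packaged -/
structure Data (δ : E → X) (K κ : ℝ) (J Ω : Type) [Fintype J] [Fintype Ω] [DecidableEq J]
    [DecidableEq Ω] where
  hu : Univ δ
  hd : Dense ((Submodule.span ℝ (Set.range δ) : Submodule ℝ X) : Set X)
  L : (Ω → ℝ) →L[ℝ] E
  hL : ∀ w, ‖L w‖ ≤ N1 w
  Λ : (Ω → ℝ) →ₗ[ℝ] (E →L[ℝ] ℝ)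
  hΛL : ∀ v w, Λ v (L w) = ∑ a, v a * w a
  hΛn : ∀ v t, (∀ a, |v a| ≤ t) → ∀ z, |Λ v z| ≤ t * ‖z‖
  r : J → Ω → ℝ
  f : J → Ω → ℝ
  h : Ω → Ω → ℝ
  hfr : ∀ j k, ∑ a, f j a * r k a = if k = j then 1 else 0
  hhr : ∀ a j, ∑ b, h a b * r j b = r j a
  hκ : ∀ a b, |h a b| ≤ κ
  hκ0 : 0 ≤ κ
  hK0 : 0 ≤ K
  T : Ω → Set (J → ℝ) → X
  Tadd : ∀ a A B, MeasurableSet A → MeasurableSet B → Disjoint A B → T a (A ∪ B) = T a A + T a B
  Tbd : ∀ a A, MeasurableSet A → ‖T a A‖ ≤ K * volume.real (A ∩ Q J)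
  Tstar : ∀ A, MeasurableSet A → ∀ (e : J → ℝ) (φ : X →L[ℝ] ℝ) (ℓ : (Ω → ℝ) →L[ℝ] ℝ) (c r' : ℝ),
        0 < r' → (∀ x ∈ A ∩ Q J, ∀ y, ‖y - Rmap r x‖ < r' → φ (δ (L y)) = ℓ y + c) →
        φ (∑ a, (Rmap r e a) • T a A) = volume.real (A ∩ Q J) * ℓ (Rmap r e)

variable {δ : E → X} {K κ : ℝ} (D : Data δ K κ J Ω)

/-- g_a = sum_j r_j(a) f_j -/
noncomputable def Data.g (a b : Ω) : ℝ := ∑ j, D.r j a * D.f j b

/-- the annihilating vectors -/
noncomputable def Data.av (a b : Ω) : ℝ := D.g a b - D.h a b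

theorem Data.av_r (a : Ω) (j : J) : ∑ b, D.av a b * D.r j b = 0 := by
  unfold Data.av Data.g
  simp_rw [sub_mul]
  rw [Finset.sum_sub_distrib, D.hhr, sub_eq_zero]
  simp_rw [Finset.sum_mul]
  rw [Finset.sum_comm]
  simp_rw [mul_assoc, ← Finset.mul_sum, D.hfr]
  simp

/-- centres -/
noncomputable def Data.cen (p : J → ℝ) : E := D.L (Rmap D.r p)

theorem Data.Λav_cen (a : Ω) (p : J → ℝ) : D.Λ (D.av a) (D.cen p) = 0 := by
  unfold Data.cen
  rw [D.hΛL]
  simp_rw [Rmap_apply, Finset.mul_sum]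
  rw [Finset.sum_comm]
  apply Finset.sum_eq_zero
  intro j _
  have : ∑ b, D.av a b * (D.r j b * p j) = (∑ b, D.av a b * D.r j b) * p j := by
    rw [Finset.sum_mul]
    exact Finset.sum_congr rfl fun b _ => by ring
  rw [this, D.av_r, zero_mul]

theorem sum_vol {γ : Type} {s : (J → ℝ) → γ} {rng : Finset γ} (hs : ∀ x, s x ∈ rng)
    (hm : ∀ p, MeasurableSet (s ⁻¹' {p})) :
    ∑ p ∈ rng, volume.real (s ⁻¹' {p} ∩ Q J) = 1 := by
  have := sum_fiber (β := ℕ) (fun A => volume.real (A ∩ Q J)) (by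
    intro A B hA hB hAB
    rw [union_inter_distrib_right, measureReal_union (hAB.mono inter_subset_left inter_subset_left)
      (hB.inter measurableSet_Q) (volume_inter_Q_ne_top A) (volume_inter_Q_ne_top B)]) s rng hm
  rw [← this]
  have e : (⋃ C ∈ rng, s ⁻¹' {C}) = univ := by
    ext x
    simp [hs x]
  rw [e, univ_inter, measureReal_def, volume_Q]
  simp

/-- the single-scale trace inequality -/
theorem Data.trace {ε : ℝ} (hε : 0 < ε) {s : (J → ℝ) → (J → ℝ)} {rng : Finset (J → ℝ)}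
    (hs : ∀ x, s x ∈ rng) (hm : ∀ p, MeasurableSet (s ⁻¹' {p}))
    (hclose : ∀ x ∈ Q J, ‖D.cen (s x) - D.cen x‖ ≤ ε / 2)
    (H : (J → ℝ) → (Ω → ℝ) →ₗ[ℝ] (X →L[ℝ] ℝ))
    (hH : ∀ p v, IsHat δ (H p v) (fun z => cut ε (D.cen p) z * (D.Λ v z - D.Λ v (D.cen p))))
    (hHn : ∀ p v t, 0 ≤ t → (∀ z, |D.Λ v z| ≤ t * ‖z‖) → ‖H p v‖ ≤ 3 * t) :
    (Fintype.card J : ℝ) - Fintype.card Ω * (κ * (3 * K)) ≤
      ∑ a, ∑ p ∈ rng, H p (D.av a) (D.T a (s ⁻¹' {p})) := by
  -- star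
  have star : ∀ (j : J) (v : Ω → ℝ), ∑ p ∈ rng, H p v (∑ a, D.r j a • D.T a (s ⁻¹' {p})) =
      ∑ a, v a * D.r j a := by
    intro j v
    have hcell : ∀ p ∈ rng, H p v (∑ a, D.r j a • D.T a (s ⁻¹' {p})) =
        volume.real (s ⁻¹' {p} ∩ Q J) * ∑ a, v a * D.r j a := by
      intro p _
      have h1 := D.Tstar (s ⁻¹' {p}) (hm p) (Pi.single j 1) (H p v)
        ((D.Λ v).comp D.L) (- D.Λ v (D.cen p) - cut ε (D.cen p) 0 * (D.Λ v 0 - D.Λ v (D.cen p)))
        (ε / (2 * (Fintype.card Ω + 1))) (by positivity) (by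
          intro x hx y hy
          rw [hH p v (D.L y)]
          have hcut : cut ε (D.cen p) (D.L y) = 1 := by
            apply cut_eq_one hε
            have hsx : s x = p := hx.1
            have h2 := hclose x hx.2
            rw [hsx] at h2
            have h3 : ‖D.L y - D.cen x‖ ≤ ε / 2 := by
              have e : D.L y - D.cen x = D.L (y - Rmap D.r x) := by
                rw [map_sub]; rfl
              rw [e]
              calc ‖D.L (y - Rmap D.r x)‖ ≤ N1 (y - Rmap D.r x) := D.hL _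
                _ ≤ Fintype.card Ω * ‖y - Rmap D.r x‖ := N1_le _
                _ ≤ (Fintype.card Ω + 1) * (ε / (2 * (Fintype.card Ω + 1))) := by
                    apply mul_le_mul (by linarith) hy.le (norm_nonneg _) (by positivity)
                _ = ε / 2 := by field_simp
            calc ‖D.L y - D.cen p‖ = ‖(D.L y - D.cen x) - (D.cen p - D.cen x)‖ := by
                  congr 1; abel
              _ ≤ ‖D.L y - D.cen x‖ + ‖D.cen p - D.cen x‖ := norm_sub_le _ _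
              _ ≤ ε := by linarith
          simp only [hcut, ContinuousLinearMap.comp_apply]
          ring)
      rw [Rmap_single] at h1
      rw [h1, ContinuousLinearMap.comp_apply, D.hΛL]
    rw [Finset.sum_congr rfl hcell, ← Finset.sum_mul, sum_vol hs hm, one_mul]
  -- trace identity
  have tr : (Fintype.card J : ℝ) = ∑ a, ∑ p ∈ rng, H p (D.g a) (D.T a (s ⁻¹' {p})) := by
    calc (Fintype.card J : ℝ) = ∑ j : J, ∑ a, D.f j a * D.r j a := by
          simp_rw [D.hfr]; simp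
      _ = ∑ j : J, ∑ p ∈ rng, H p (D.f j) (∑ a, D.r j a • D.T a (s ⁻¹' {p})) := by
          exact Finset.sum_congr rfl fun j _ => (star j (D.f j)).symm
      _ = ∑ j : J, ∑ p ∈ rng, ∑ a, D.r j a * H p (D.f j) (D.T a (s ⁻¹' {p})) := by
          simp only [map_sum, map_smul, smul_eq_mul]
      _ = ∑ p ∈ rng, ∑ a, ∑ j : J, D.r j a * H p (D.f j) (D.T a (s ⁻¹' {p})) := by
          rw [Finset.sum_comm]
          refine Finset.sum_congr rfl fun p _ => ?_
          rw [Finset.sum_comm]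
      _ = ∑ p ∈ rng, ∑ a, H p (D.g a) (D.T a (s ⁻¹' {p})) := by
          refine Finset.sum_congr rfl fun p _ => Finset.sum_congr rfl fun a _ => ?_
          have e : D.g a = ∑ j, D.r j a • D.f j := by
            ext b
            simp [Data.g]
          rw [e, map_sum]
          simp only [map_smul, sum_apply, smul_apply,
            smul_eq_mul]
      _ = ∑ a, ∑ p ∈ rng, H p (D.g a) (D.T a (s ⁻¹' {p})) := Finset.sum_comm
  have hh : ∑ a, ∑ p ∈ rng, H p (D.h a) (D.T a (s ⁻¹' {p})) ≤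
      Fintype.card Ω * (κ * (3 * K)) := by
    calc ∑ a, ∑ p ∈ rng, H p (D.h a) (D.T a (s ⁻¹' {p}))
        ≤ ∑ a : Ω, ∑ p ∈ rng, (3 * κ) * (K * volume.real (s ⁻¹' {p} ∩ Q J)) := by
          refine Finset.sum_le_sum fun a _ => Finset.sum_le_sum fun p _ => ?_
          calc H p (D.h a) (D.T a (s ⁻¹' {p})) ≤ |H p (D.h a) (D.T a (s ⁻¹' {p}))| := le_abs_self _
            _ ≤ ‖H p (D.h a)‖ * ‖D.T a (s ⁻¹' {p})‖ := (H p (D.h a)).le_opNorm _
            _ ≤ (3 * κ) * (K * volume.real (s ⁻¹' {p} ∩ Q J)) := by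
                apply mul_le_mul (hHn p _ κ D.hκ0 (D.hΛn _ κ (D.hκ a))) (D.Tbd a _ (hm p))
                  (norm_nonneg _) (by linarith [D.hκ0])
      _ = ∑ a : Ω, (3 * κ) * (K * 1) := by
          refine Finset.sum_congr rfl fun a _ => ?_
          rw [← Finset.mul_sum, ← Finset.mul_sum, sum_vol hs hm]
      _ = Fintype.card Ω * (κ * (3 * K)) := by
          rw [Finset.sum_const, Finset.card_univ, nsmul_eq_mul]; ring
  have hsplit : ∑ a, ∑ p ∈ rng, H p (D.av a) (D.T a (s ⁻¹' {p})) =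
      (∑ a, ∑ p ∈ rng, H p (D.g a) (D.T a (s ⁻¹' {p}))) -
      ∑ a, ∑ p ∈ rng, H p (D.h a) (D.T a (s ⁻¹' {p})) := by
    rw [← Finset.sum_sub_distrib]
    refine Finset.sum_congr rfl fun a _ => ?_
    rw [← Finset.sum_sub_distrib]
    refine Finset.sum_congr rfl fun p _ => ?_
    have e : D.av a = D.g a - D.h a := by
      ext b; rfl
    rw [e, map_sub, sub_apply]
  rw [hsplit, ← tr]
  linarith

end Pool.Agent.H273.Scale
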