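import Mathlib
import Pool.Agent.H273.Scale

set_option autoImplicit false
set_option linter.unusedSectionVars false

open MeasureTheory Filter Topology Set Metric
open scoped NNReal ENNReal

namespace Pool.Agent.H273.Scale

open Pool.Agent.H273.Moll Pool.Agent.H273.Hat Pool.Agent.H273.Cut

variable {E : Type} [NormedAddCommGroup E] [NormedSpace ℝ E]
variable {X : Type} [NormedAddCommGroup X] [NormedSpace ℝ X] [CompleteSpace X]
variable {J Ω : Type} [Fintype J] [Fintype Ω] [DecidableEq J] [DecidableEq Ω]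
variable {δ : E → X} {K κ : ℝ} (D : Data δ K κ J Ω)

theorem Data.exists_CA : ∃ C : ℝ, 0 ≤ C ∧ ∀ a b, |D.av a b| ≤ C := by
  refine ⟨∑ a, ∑ b, |D.av a b|, Finset.sum_nonneg fun a _ => Finset.sum_nonneg fun b _ =>
    abs_nonneg _, fun a b => ?_⟩
  calc |D.av a b| ≤ ∑ b, |D.av a b| :=
        Finset.single_le_sum (f := fun b => |D.av a b|) (fun b _ => abs_nonneg _)
          (Finset.mem_univ b)
    _ ≤ ∑ a, ∑ b, |D.av a b| :=
        Finset.single_le_sum (f := fun a => ∑ b, |D.av a b|)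
          (fun a _ => Finset.sum_nonneg fun b _ => abs_nonneg _) (Finset.mem_univ a)

/-- truncated test functions -/
noncomputable def Data.tr (ε R : ℝ) (p : J → ℝ) (a : Ω) (z : E) : ℝ :=
  cut ε (D.cen p) z * dz R (D.Λ (D.av a) z)

theorem Data.tr_lip {C : ℝ} (hC : 0 ≤ C) (hCA : ∀ a b, |D.av a b| ≤ C) {ε : ℝ} (hε : 0 < ε)
    {R : ℝ} (hR : 0 ≤ R) (p : J → ℝ) (a : Ω) (z z' : E) :
    |D.tr ε R p a z - D.tr ε R p a z'| ≤ 3 * C * ‖z - z'‖ := by
  apply mul_cut_lip hε (D.cen p) hC (u := fun z => dz R (D.Λ (D.av a) z))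
  · intro y y'
    refine (dz_lip hR _ _).trans ?_
    rw [← map_sub]
    exact D.hΛn _ _ (hCA a) _
  · simp only [D.Λav_cen]
    exact dz_zero hR (by simpa using hR)

theorem Data.tr_ne_zero {C : ℝ} (hC : 0 ≤ C) (hCA : ∀ a b, |D.av a b| ≤ C) {ε : ℝ} (hε : 0 < ε)
    {R : ℝ} (hR : 0 ≤ R) {p : J → ℝ} {a : Ω} {z : E} (h : D.tr ε R p a z ≠ 0) :
    R < |D.Λ (D.av a) z| ∧ |D.Λ (D.av a) z| ≤ 2 * C * ε := by
  constructor
  · by_contra hcon
    apply h
    unfold Data.tr
    rw [dz_zero hR (not_lt.1 hcon), mul_zero]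
  · have h1 : ‖z - D.cen p‖ < 2 * ε := by
      by_contra hcon
      apply h
      unfold Data.tr
      rw [cut_eq_zero hε (not_lt.1 hcon), zero_mul]
    have h2 : D.Λ (D.av a) z = D.Λ (D.av a) (z - D.cen p) := by
      rw [map_sub, D.Λav_cen, sub_zero]
    rw [h2]
    calc |D.Λ (D.av a) (z - D.cen p)| ≤ C * ‖z - D.cen p‖ := D.hΛn _ _ (hCA a) _
      _ ≤ C * (2 * ε) := by gcongr
      _ = 2 * C * ε := by ring

include D in
theorem Data.hat_norm {G : E → ℝ} {C : ℝ} (hC : 0 ≤ C)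
    (hG : ∀ z z', |G z - G z'| ≤ C * ‖z - z'‖) {φ : X →L[ℝ] ℝ} (hφ : IsHat δ φ G) : ‖φ‖ ≤ C := by
  obtain ⟨ψ, h1, h2⟩ := exists_hat D.hu hC hG
  have : φ = ψ := hat_unique D.hd fun z => by rw [hφ, h2]
  rw [this]; exact h1

theorem Data.scale {η : ℝ} (hη : 0 < η)
    (hbig : η ≤ (Fintype.card J : ℝ) - Fintype.card Ω * (κ * (3 * K))) {ε : ℝ} (hε : 0 < ε) :
    ∃ (s : (J → ℝ) → (J → ℝ)) (rng : Finset (J → ℝ)) (R : ℝ),
      (∀ x, s x ∈ rng) ∧ (∀ p, MeasurableSet (s ⁻¹' {p})) ∧ 0 < R ∧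
      ∀ φ : Ω → (J → ℝ) → (X →L[ℝ] ℝ), (∀ a p, IsHat δ (φ a p) (D.tr ε R p a)) →
        η / 2 ≤ ∑ a, ∑ p ∈ rng, φ a p (D.T a (s ⁻¹' {p})) := by
  obtain ⟨C, hC, hCA⟩ := D.exists_CA
  set B : ℝ := Fintype.card Ω * ‖Rmap D.r‖ with hB
  have hB0 : 0 ≤ B := mul_nonneg (Nat.cast_nonneg _) (ContinuousLinearMap.opNorm_nonneg _)
  obtain ⟨s, rng, hs, hm, hsc⟩ := exists_part (J := J) (ε := ε / (2 * (B + 1))) (by positivity)
  have hclose : ∀ x ∈ Q J, ‖D.cen (s x) - D.cen x‖ ≤ ε / 2 := by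
    intro x hx
    have e : D.cen (s x) - D.cen x = D.L (Rmap D.r (s x - x)) := by
      unfold Data.cen; rw [map_sub, map_sub]
    rw [e]
    calc ‖D.L (Rmap D.r (s x - x))‖ ≤ N1 (Rmap D.r (s x - x)) := D.hL _
      _ ≤ Fintype.card Ω * ‖Rmap D.r (s x - x)‖ := N1_le _
      _ ≤ Fintype.card Ω * (‖Rmap D.r‖ * ‖s x - x‖) := by
          gcongr; exact (Rmap D.r).le_opNorm _
      _ = B * ‖s x - x‖ := by rw [hB]; ring
      _ ≤ (B + 1) * (ε / (2 * (B + 1))) := by
          apply mul_le_mul (by linarith) (hsc x hx) (norm_nonneg _) (by positivity)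
      _ = ε / 2 := by field_simp
  choose H hH hHn using fun p : J → ℝ => exists_H D.hu D.hd hε (D.cen p) D.Λ
  have htr := D.trace hε hs hm hclose H hH hHn
  -- weak star choice of R
  set η' : ℝ := η / (2 * (Fintype.card Ω * rng.card + 1)) with hη'
  have hη'0 : 0 < η' := by positivity
  choose ρ hρ0 hρ using fun (a : Ω) (p : J → ℝ) =>
    wstar D.hd (D.T a (s ⁻¹' {p})) (C := 6 * C) (by positivity) hη'0
  have hev : ∀ᶠ R : ℝ in 𝓝[>] 0, (∀ a, ∀ p ∈ rng, 2 * R ≤ ρ a p) ∧ 0 < R := by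
    refine (eventually_all.2 fun a => (Finset.eventually_all rng).2 fun p _ => ?_).and
      self_mem_nhdsWithin
    have : Ioo (0 : ℝ) (ρ a p / 2) ∈ 𝓝[>] (0 : ℝ) := Ioo_mem_nhdsGT (by linarith [hρ0 a p])
    filter_upwards [this] with R hR
    linarith [hR.2]
  obtain ⟨R, hR2, hR0⟩ := hev.exists
  refine ⟨s, rng, R, hs, hm, hR0, fun φ hφ => ?_⟩
  have hdiff : ∀ a, ∀ p ∈ rng, H p (D.av a) (D.T a (s ⁻¹' {p})) - φ a p (D.T a (s ⁻¹' {p})) ≤ η' := by
    intro a p hp
    have h1 : ‖H p (D.av a) - φ a p‖ ≤ 6 * C := by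
      calc ‖H p (D.av a) - φ a p‖ ≤ ‖H p (D.av a)‖ + ‖φ a p‖ := norm_sub_le _ _
        _ ≤ 3 * C + 3 * C := by
            apply add_le_add
            · exact hHn p _ C hC (D.hΛn _ _ (hCA a))
            · exact D.hat_norm (by positivity) (D.tr_lip hC hCA hε hR0.le p a) (hφ a p)
        _ = 6 * C := by ring
    have h2 : ∀ z, |cut ε (D.cen p) z * (D.Λ (D.av a) z - D.Λ (D.av a) (D.cen p)) -
        D.tr ε R p a z| ≤ R := by
      intro z
      have e : cut ε (D.cen p) z * (D.Λ (D.av a) z - D.Λ (D.av a) (D.cen p)) - D.tr ε R p a z =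
          cut ε (D.cen p) z * (D.Λ (D.av a) z - dz R (D.Λ (D.av a) z)) := by
        unfold Data.tr
        rw [D.Λav_cen]
        ring
      rw [e, abs_mul, abs_of_nonneg (cut_nonneg _ _ _)]
      calc cut ε (D.cen p) z * |D.Λ (D.av a) z - dz R (D.Λ (D.av a) z)| ≤ 1 * R :=
            mul_le_mul (cut_le_one _ _ _) (sub_dz_le hR0.le _) (abs_nonneg _) (by norm_num)
        _ = R := one_mul _
    have h3 : ∀ z, |(H p (D.av a) - φ a p) (δ z)| ≤ 2 * R := by
      intro z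
      have e : (H p (D.av a) - φ a p) (δ z) =
          (cut ε (D.cen p) z * (D.Λ (D.av a) z - D.Λ (D.av a) (D.cen p)) - D.tr ε R p a z) -
          (cut ε (D.cen p) 0 * (D.Λ (D.av a) 0 - D.Λ (D.av a) (D.cen p)) - D.tr ε R p a 0) := by
        rw [sub_apply, hH p (D.av a) z, hφ a p z]
        ring
      rw [e]
      calc _ ≤ _ := abs_sub _ _
        _ ≤ R + R := add_le_add (h2 z) (h2 0)
        _ = 2 * R := by ring
    have h4 := hρ a p (H p (D.av a) - φ a p) (2 * R) (by positivity) (hR2 a p hp) h1 h3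
    have h5 := le_of_abs_le h4
    rwa [sub_apply] at h5
  have hsum : ∑ a, ∑ p ∈ rng, H p (D.av a) (D.T a (s ⁻¹' {p})) ≤
      ∑ a, ∑ p ∈ rng, φ a p (D.T a (s ⁻¹' {p})) + η / 2 := by
    have h6 : ∑ a, ∑ p ∈ rng, H p (D.av a) (D.T a (s ⁻¹' {p})) ≤
        ∑ a, ∑ p ∈ rng, (φ a p (D.T a (s ⁻¹' {p})) + η') := by
      refine Finset.sum_le_sum fun a _ => Finset.sum_le_sum fun p hp => ?_
      linarith [hdiff a p hp]
    refine h6.trans ?_
    simp only [Finset.sum_add_distrib, Finset.sum_const, nsmul_eq_mul, Finset.card_univ]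
    have h7 : (Fintype.card Ω : ℝ) * (rng.card * η') ≤ η / 2 := by
      rw [hη']
      have h8 : (0 : ℝ) ≤ Fintype.card Ω * rng.card := by positivity
      calc (Fintype.card Ω : ℝ) * (rng.card * (η / (2 * (Fintype.card Ω * rng.card + 1))))
          = ((Fintype.card Ω * rng.card) / (Fintype.card Ω * rng.card + 1)) * (η / 2) := by
            field_simp
        _ ≤ 1 * (η / 2) := by
            gcongr
            rw [div_le_one (by positivity)]
            linarith
        _ = η / 2 := one_mul _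
    linarith
  linarith

include D in
theorem Data.contra {η : ℝ} (hη : 0 < η)
    (hbig : η ≤ (Fintype.card J : ℝ) - Fintype.card Ω * (κ * (3 * K))) : False := by
  classical
  obtain ⟨C, hC, hCA⟩ := D.exists_CA
  choose s rng R hs hm hR hφ using fun ε : {e : ℝ // 0 < e} => D.scale hη hbig ε.2
  -- the scales
  let eps : ℕ → {e : ℝ // 0 < e} := fun n => Nat.rec (⟨1, one_pos⟩ : {e : ℝ // 0 < e})
    (fun _ e => ⟨min e.1 (R e / (2 * C + 1)), lt_min e.2 (div_pos (hR e) (by positivity))⟩) n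
  have heps : ∀ n, (eps (n + 1)).1 = min (eps n).1 (R (eps n) / (2 * C + 1)) := fun n => rfl
  have hanti : Antitone (fun n => (eps n).1) :=
    antitone_nat_of_succ_le fun n => by rw [heps]; exact min_le_left _ _
  have hsep : ∀ i j, i < j → 2 * C * (eps j).1 ≤ R (eps i) := by
    intro i j hij
    have h1 : (eps j).1 ≤ (eps (i + 1)).1 := hanti hij
    have h2 : (eps (i + 1)).1 ≤ R (eps i) / (2 * C + 1) := by rw [heps]; exact min_le_right _ _
    calc 2 * C * (eps j).1 ≤ (2 * C + 1) * (R (eps i) / (2 * C + 1)) := by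
          apply mul_le_mul (by linarith) (h1.trans h2) (eps j).2.le (by positivity)
      _ = R (eps i) := by field_simp
  obtain ⟨M, hM⟩ := exists_nat_gt (Fintype.card Ω * (6 * C * K) / (η / 2))
  have hM' : Fintype.card Ω * (6 * C * K) < M * (η / 2) := by
    rwa [div_lt_iff₀ (by positivity)] at hM
  -- hats at each scale
  choose φ hφn hφh using fun (j : Fin M) (a : Ω) (p : J → ℝ) =>
    exists_hat D.hu (by positivity) (D.tr_lip hC hCA (eps j).2 (hR (eps j)).le p a)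
  let S : (J → ℝ) → (Fin M → (J → ℝ)) := fun x j => s (eps j) x
  let t : Finset (Fin M → (J → ℝ)) := Fintype.piFinset fun j => rng (eps j)
  have hS : ∀ x, S x ∈ t := fun x => Fintype.mem_piFinset.2 fun j => hs (eps j) x
  have hSm : ∀ c, MeasurableSet (S ⁻¹' {c}) := by
    intro c
    have e : S ⁻¹' {c} = ⋂ j : Fin M, (s (eps j)) ⁻¹' {c j} := by
      ext x
      simp only [mem_preimage, mem_singleton_iff, mem_iInter, S]
      exact funext_iff
    rw [e]
    exact MeasurableSet.iInter fun j => hm _ _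
  -- the composite functional
  have hΨn : ∀ (a : Ω) (c : Fin M → (J → ℝ)), ‖∑ j : Fin M, φ j a (c j)‖ ≤ 6 * C := by
    intro a c
    have h1 : ∀ z z', |∑ j : Fin M, D.tr (eps j).1 (R (eps j)) (c j) a z -
        ∑ j : Fin M, D.tr (eps j).1 (R (eps j)) (c j) a z'| ≤ 2 * (3 * C) * ‖z - z'‖ := by
      intro z z'
      apply sum_disjoint_lip Finset.univ
        (fun (j : Fin M) z => D.tr (eps j).1 (R (eps j)) (c j) a z) (by positivity)
      · intro j _ y y'
        exact D.tr_lip hC hCA (eps j).2 (hR (eps j)).le (c j) a y y'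
      · intro i _ j _ hij y
        by_contra hcon
        push Not at hcon
        have h2 := D.tr_ne_zero hC hCA (eps i).2 (hR (eps i)).le hcon.1
        have h3 := D.tr_ne_zero hC hCA (eps j).2 (hR (eps j)).le hcon.2
        rcases lt_or_gt_of_ne hij with h4 | h4
        · have := hsep i j h4
          linarith [h2.1, h3.2]
        · have := hsep j i h4
          linarith [h3.1, h2.2]
    have h2 : IsHat δ (∑ j : Fin M, φ j a (c j))
        (fun z => ∑ j : Fin M, D.tr (eps j).1 (R (eps j)) (c j) a z) := by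
      intro z
      rw [sum_apply, ← Finset.sum_sub_distrib]
      exact Finset.sum_congr rfl fun j _ => hφh j a (c j) z
    have h3 := D.hat_norm (by positivity) h1 h2
    linarith
  have hup : ∑ a, ∑ c ∈ t, (∑ j : Fin M, φ j a (c j)) (D.T a (S ⁻¹' {c})) ≤
      Fintype.card Ω * (6 * C * K) := by
    calc ∑ a, ∑ c ∈ t, (∑ j : Fin M, φ j a (c j)) (D.T a (S ⁻¹' {c}))
        ≤ ∑ a : Ω, ∑ c ∈ t, (6 * C) * (K * volume.real (S ⁻¹' {c} ∩ Q J)) := by
          refine Finset.sum_le_sum fun a _ => Finset.sum_le_sum fun c _ => ?_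
          calc (∑ j : Fin M, φ j a (c j)) (D.T a (S ⁻¹' {c}))
              ≤ |(∑ j : Fin M, φ j a (c j)) (D.T a (S ⁻¹' {c}))| := le_abs_self _
            _ ≤ ‖∑ j : Fin M, φ j a (c j)‖ * ‖D.T a (S ⁻¹' {c})‖ := (∑ j : Fin M, φ j a (c j)).le_opNorm _
            _ ≤ (6 * C) * (K * volume.real (S ⁻¹' {c} ∩ Q J)) :=
                mul_le_mul (hΨn a c) (D.Tbd a _ (hSm c)) (norm_nonneg _) (by positivity)
      _ = ∑ a : Ω, (6 * C) * (K * 1) := by
          refine Finset.sum_congr rfl fun a _ => ?_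
          rw [← Finset.mul_sum, ← Finset.mul_sum, sum_vol hS hSm]
      _ = Fintype.card Ω * (6 * C * K) := by
          rw [Finset.sum_const, Finset.card_univ, nsmul_eq_mul]; ring
  have hlow : M * (η / 2) ≤ ∑ a, ∑ c ∈ t, (∑ j : Fin M, φ j a (c j)) (D.T a (S ⁻¹' {c})) := by
    have e1 : ∑ a, ∑ c ∈ t, (∑ j : Fin M, φ j a (c j)) (D.T a (S ⁻¹' {c})) =
        ∑ j : Fin M, ∑ a, ∑ p ∈ rng (eps j), φ j a p (D.T a ((s (eps j)) ⁻¹' {p})) := by
      simp_rw [sum_apply]
      have e2 : ∀ a, ∑ c ∈ t, ∑ j : Fin M, (φ j a (c j)) (D.T a (S ⁻¹' {c})) =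
          ∑ j : Fin M, ∑ p ∈ rng (eps j), φ j a p (D.T a ((s (eps j)) ⁻¹' {p})) := by
        intro a
        rw [Finset.sum_comm]
        refine Finset.sum_congr rfl fun j _ => ?_
        have := sum_refine (D.T a) (D.Tadd a) S (fun c => c j) t (rng (eps j)) hS
          (fun c hc => Fintype.mem_piFinset.1 hc j) hSm (fun p x => φ j a p x)
          (fun p => map_zero _) (fun p x y => map_add _ _ _)
        exact this.symm
      simp_rw [e2]
      rw [Finset.sum_comm]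
    rw [e1]
    calc (M : ℝ) * (η / 2) = ∑ _j : Fin M, η / 2 := by simp
      _ ≤ _ := Finset.sum_le_sum fun j _ => hφ (eps j) (φ j) (hφh j)
  linarith

end Pool.Agent.H273.Scale
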