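import Mathlib

set_option autoImplicit false
set_option linter.unusedSectionVars false

namespace Pool.Agent.H273.Tens

open Finset

/-- the two basis vectors of the plane of mean zero vectors in R^3 -/
def w (k : Fin 2) (b : Fin 3) : ℝ := if b = k.castSucc then 1 else if b = 2 then -1 else 0

/-- representatives of small sup norm -/
noncomputable def h0 (a b : Fin 3) : ℝ := (if b = a then 1 else 0) - 1 / 2

theorem h0_abs (a b : Fin 3) : |h0 a b| = 1 / 2 := by
  unfold h0
  split_ifs
  · norm_num
  · norm_num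

theorem h0_w (a : Fin 3) (k : Fin 2) : ∑ b, h0 a b * w k b = w k a := by
  fin_cases a <;> fin_cases k <;> simp [h0, w, Fin.sum_univ_three] <;> norm_num

theorem w_castSucc (k l : Fin 2) : w k l.castSucc = if k = l then 1 else 0 := by
  fin_cases k <;> fin_cases l <;> simp [w]

variable (n : ℕ)

abbrev J := Fin n → Fin 2
abbrev Om := Fin n → Fin 3

def r (j : J n) (a : Om n) : ℝ := ∏ i, w (j i) (a i)

noncomputable def h (a b : Om n) : ℝ := ∏ i, h0 (a i) (b i)

def inc (j : J n) : Om n := fun i => (j i).castSucc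

theorem h_abs (a b : Om n) : |h n a b| = (1 / 2) ^ n := by
  unfold h
  rw [Finset.abs_prod]
  simp [h0_abs]

theorem h_r (a : Om n) (j : J n) : ∑ b, h n a b * r n j b = r n j a := by
  unfold h r
  simp_rw [← Finset.prod_mul_distrib]
  have := Finset.prod_univ_sum (fun _ : Fin n => (Finset.univ : Finset (Fin 3)))
    (fun i b => h0 (a i) b * w (j i) b)
  simp only [Fintype.piFinset_univ] at this
  rw [← this]
  exact Finset.prod_congr rfl fun i _ => h0_w (a i) (j i)

theorem r_inc (j k : J n) : r n j (inc n k) = if j = k then 1 else 0 := by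
  unfold r inc
  simp_rw [w_castSucc]
  by_cases hjk : j = k
  · subst hjk; simp
  · rw [if_neg hjk]
    have : ∃ i, j i ≠ k i := by
      by_contra hcon
      push Not at hcon
      exact hjk (funext hcon)
    obtain ⟨i, hi⟩ := this
    exact Finset.prod_eq_zero (Finset.mem_univ i) (if_neg hi)

/-- coordinate functional at inc j, as a vector -/
def f (j : J n) (a : Om n) : ℝ := if a = inc n j then 1 else 0

theorem f_r (j k : J n) : ∑ a, f n j a * r n k a = if k = j then 1 else 0 := by
  unfold f
  simp [r_inc]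

theorem exists_large (K : ℝ) : ∃ n : ℕ, (Fintype.card (Om n) : ℝ) * ((1 / 2) ^ n * K) <
    Fintype.card (J n) := by
  have h1 : ((3 : ℝ) / 4) < 1 := by norm_num
  obtain ⟨n, hn⟩ := exists_pow_lt_of_lt_one (show (0 : ℝ) < 1 / (|K| + 1) by positivity) h1
  refine ⟨n, ?_⟩
  simp only [Fintype.card_pi, Fintype.card_fin, Finset.prod_const, Finset.card_univ]
  push_cast
  have e : (3 : ℝ) ^ n * ((1 / 2) ^ n * K) = (3 / 4) ^ n * K * 2 ^ n := by
    rw [div_pow, div_pow, one_pow, show (4 : ℝ) = 2 * 2 by norm_num, mul_pow]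
    field_simp
  rw [e]
  have h2 : (3 / 4 : ℝ) ^ n * K < 1 := by
    calc (3 / 4 : ℝ) ^ n * K ≤ (3 / 4 : ℝ) ^ n * (|K| + 1) := by
          gcongr; linarith [le_abs_self K]
      _ < 1 / (|K| + 1) * (|K| + 1) := by gcongr
      _ = 1 := by field_simp
  have h3 : (0 : ℝ) < 2 ^ n := by positivity
  nlinarith

end Pool.Agent.H273.Tens
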