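import Mathlib
import Pool.Agent.H273.Final
import Pool.Agent.H273.Tens

set_option autoImplicit false
set_option linter.unusedSectionVars false

open MeasureTheory Filter Topology Set Metric
open scoped NNReal ENNReal

namespace Pool.Agent.H273.EllOne

open Pool.Agent.H273.Moll Pool.Agent.H273.Hat Pool.Agent.H273.Cut Pool.Agent.H273.Scale

abbrev E1 := lp (fun _ : ℕ => ℝ) 1

variable {Ω : Type} [Fintype Ω] [DecidableEq Ω]

noncomputable def idx (a : Ω) : ℕ := (Fintype.equivFin Ω a).val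

theorem idx_inj : Function.Injective (idx : Ω → ℕ) := by
  intro a b h
  exact (Fintype.equivFin Ω).injective (Fin.ext h)

noncomputable def Lmap : (Ω → ℝ) →L[ℝ] E1 :=
  ∑ a : Ω, (ContinuousLinearMap.proj (R := ℝ) (φ := fun _ : Ω => ℝ) a).smulRight
    (lp.single (E := fun _ : ℕ => ℝ) 1 (idx a) (1 : ℝ) : E1)

theorem Lmap_apply (w : Ω → ℝ) :
    Lmap w = ∑ a : Ω, w a • (lp.single (E := fun _ : ℕ => ℝ) 1 (idx a) (1 : ℝ) : E1) := by
  simp [Lmap]

theorem Lmap_norm (w : Ω → ℝ) : ‖Lmap w‖ ≤ N1 w := by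
  rw [Lmap_apply]
  refine (norm_sum_le _ _).trans ?_
  unfold N1
  refine Finset.sum_le_sum fun a _ => ?_
  rw [norm_smul, lp.norm_single (by norm_num)]
  simp

noncomputable def Lam : (Ω → ℝ) →ₗ[ℝ] (E1 →L[ℝ] ℝ) where
  toFun v := ∑ a : Ω, v a • lp.evalCLM ℝ (fun _ : ℕ => ℝ) 1 (idx a)
  map_add' v w := by
    simp only [Pi.add_apply, add_smul, Finset.sum_add_distrib]
  map_smul' c v := by
    simp only [Pi.smul_apply, smul_eq_mul, RingHom.id_apply, Finset.smul_sum, smul_smul]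

theorem Lam_apply (v : Ω → ℝ) (z : E1) : Lam v z = ∑ a : Ω, v a * z (idx a) := by
  simp only [Lam, LinearMap.coe_mk, AddHom.coe_mk, sum_apply, smul_apply, smul_eq_mul]
  rfl

theorem Lam_Lmap (v w : Ω → ℝ) : Lam v (Lmap w) = ∑ a, v a * w a := by
  rw [Lam_apply]
  refine Finset.sum_congr rfl fun a _ => ?_
  congr 1
  rw [Lmap_apply]
  have h1 : ((∑ b : Ω, w b • (lp.single (E := fun _ : ℕ => ℝ) 1 (idx b) (1 : ℝ) : E1) : E1) :
      ∀ _ : ℕ, ℝ) (idx a) = ∑ b : Ω, w b * (Pi.single (idx b) (1 : ℝ) : ℕ → ℝ) (idx a) := by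
    rw [lp.coeFn_sum, Finset.sum_apply]
    refine Finset.sum_congr rfl fun b _ => ?_
    rfl
  rw [h1, Finset.sum_eq_single a]
  · simp
  · intro b _ hb
    have : idx a ≠ idx b := fun h => hb (idx_inj h).symm
    simp [Pi.single_eq_of_ne this]
  · simp

theorem Lam_norm [Nonempty Ω] (v : Ω → ℝ) (t : ℝ) (ht : ∀ a, |v a| ≤ t) (z : E1) : |Lam v z| ≤ t * ‖z‖ := by
  classical
  rw [Lam_apply]
  obtain ⟨a0⟩ := (inferInstance : Nonempty Ω)
  have ht0 : 0 ≤ t := (abs_nonneg _).trans (ht a0)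
  have h1 : ∑ a : Ω, |z (idx a)| ≤ ‖z‖ := by
    have h2 := lp.sum_rpow_le_norm_rpow (E := fun _ : ℕ => ℝ) (p := 1) (by norm_num) z
      (Finset.univ.image (idx : Ω → ℕ))
    rw [Finset.sum_image (fun a _ b _ h => idx_inj h)] at h2
    simpa using h2
  calc |∑ a : Ω, v a * z (idx a)| ≤ ∑ a : Ω, |v a * z (idx a)| := Finset.abs_sum_le_sum_abs _ _
    _ ≤ ∑ a : Ω, t * |z (idx a)| := by
        refine Finset.sum_le_sum fun a _ => ?_
        rw [abs_mul]
        exact mul_le_mul_of_nonneg_right (ht a) (abs_nonneg _)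
    _ = t * ∑ a : Ω, |z (idx a)| := by rw [Finset.mul_sum]
    _ ≤ t * ‖z‖ := by gcongr

end Pool.Agent.H273.EllOne
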